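import Pool.Agent.W634.Owings.Dyn

set_option autoImplicit false

namespace Pool.Agent.W634.Owings

open Filter

lemma ul_agree_sh (U : Ultrafilter ℤ) (h : ℤ → Bool) (n : ℕ) (x : ℤ) :
    ∀ᶠ z in U, agree n (sh (z + x) h) (sh x (ul U h)) := by
  filter_upwards [ul_agree U h (n + x.natAbs)] with z hz
  have := agree_sh (m := n) (i := x) (by rw [Int.abs_eq_natAbs]; push_cast; omega) hz
  rwa [sh_sh, add_comm] at this

lemma agree_iff (U : Ultrafilter ℤ) (h a : ℤ → Bool) (n : ℕ) (x : ℤ) :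
    (∀ᶠ z in U, agree n (sh (z + x) h) a) ↔ agree n (sh x (ul U h)) a := by
  constructor
  · intro H
    obtain ⟨z, h1, h2⟩ := (H.and (ul_agree_sh U h n x)).exists
    exact agree_trans (agree_symm h2) h1
  · intro H
    filter_upwards [ul_agree_sh U h n x] with z hz
    exact agree_trans hz H

lemma om_min {g : ℤ → Bool} {q : Ultrafilter ℤ}
    (hrec : ∀ D : ℤ → Prop, (∃ x₀ : ℤ, ∀ᶠ z in q, D (z + x₀)) →
      Synd fun x => ∀ᶠ z in q, D (z + x))
    {h b : ℤ → Bool} (hh : h ∈ Om (ul q g)) (hb : b ∈ Om (ul q g)) (n : ℕ) :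
    ∃ i, agree n (sh i h) b := by
  obtain ⟨m, hm⟩ := hb n
  obtain ⟨G, hG0, hG⟩ := hrec (fun z => agree n (sh z g) (sh m (ul q g)))
    ⟨m, ul_agree_sh q g n m⟩
  obtain ⟨m', hm'⟩ := hh (n + G.toNat)
  obtain ⟨x, hx1, hx2, hx3⟩ := hG m'
  rw [agree_iff] at hx3
  refine ⟨x - m', ?_⟩
  have h1 := agree_sh (m := n) (i := x - m')
    (by rw [abs_of_nonneg (by omega)]; push_cast; omega) hm'
  rw [sh_sh, sub_add_cancel] at h1
  exact agree_trans h1 (agree_trans hx3 (agree_symm hm))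

theorem threefold {g : ℤ → Bool} (hg : NB g) : ∃ (F : ℤ → Bool) (A B C : ℤ → Prop),
    Synd A ∧ Synd B ∧ Synd C ∧
    (∀ s s' x y x', A s → A s' → B x → B y → C x' → F (s + x + x') = F (s' + y + x')) ∧
    ∀ (n : ℕ) (m : ℤ), ∃ z, m ≤ z ∧ agree n (sh z g) F := by
  obtain ⟨q, hq, hrec⟩ := exists_rec
  obtain ⟨k, hk⟩ : ∃ k, k = ul q g := ⟨_, rfl⟩
  obtain ⟨h1, hh1⟩ : ∃ h1, h1 = ul q k := ⟨_, rfl⟩
  obtain ⟨F, hF⟩ : ∃ F, F = ul q h1 := ⟨_, rfl⟩
  have hkO : k ∈ Om k := Om_self k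
  have hh1O : h1 ∈ Om k := by
    rw [hh1]
    exact Om_ulf q _ fun z => Om_sh hkO z
  have hmin : ∀ {h b : ℤ → Bool}, h ∈ Om k → b ∈ Om k → ∀ n, ∃ i, agree n (sh i h) b := by
    intro h b hh hb n
    rw [hk] at hh hb
    exact om_min hrec hh hb n
  -- good cylinders for every level
  have hgood : ∀ N : ℕ, ∃ (a : ℤ → Bool) (l : ℕ) (i : ℤ), a ∈ Om k ∧ Good g k a l N ∧
      agree l (sh i k) a := by
    intro N
    obtain ⟨b, hb, -, l, hl⟩ := good_dense hg k N k hkO 0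
    obtain ⟨i, hi⟩ := hmin hkO hb l
    exact ⟨b, l, i, hb, hl, hi⟩
  choose a l i haO haG hai using hgood
  let V : Ultrafilter ℕ := hyperfilter ℕ
  have hV : (V : Filter ℕ) ≤ atTop := Nat.hyperfilter_le_atTop
  obtain ⟨hs, hhs⟩ : ∃ hs, hs = ulf V (fun N => sh (2 * i N) h1) := ⟨_, rfl⟩
  have hsO : hs ∈ Om k := by
    rw [hhs]
    exact Om_ulf V _ fun N => Om_sh hh1O _
  -- an even shift of `hs` lies in a good cylinder
  obtain ⟨u, a₀, l₀, ha₀O, ha₀G, ha₀⟩ : ∃ (u : ℤ) (a₀ : ℤ → Bool) (l₀ : ℕ), a₀ ∈ Om k ∧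
      Good g k a₀ l₀ 0 ∧ agree l₀ (sh (2 * u) hs) a₀ := by
    obtain ⟨b₁, hb₁, -, l₁, hl₁⟩ := good_dense hg k 0 k hkO 0
    obtain ⟨b', hb', hag, l', hl'⟩ := good_dense hg k 0 (sh (-1) b₁) (Om_sh hb₁ _) (l₁ + 1)
    obtain ⟨j, hj⟩ := hmin hsO hb' (max l' (l₁ + 1))
    rcases Int.even_or_odd' j with ⟨u, hu | hu⟩
    · exact ⟨u, b', l', hb', hl', by rw [← hu]; exact agree_mono (le_max_left _ _) hj⟩
    · refine ⟨u + 1, b₁, l₁, hb₁, hl₁, ?_⟩
      have e1 : sh (2 * (u + 1)) hs = sh 1 (sh j hs) := by rw [sh_sh, hu]; congr 1; ring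
      have e2 : b₁ = sh 1 (sh (-1) b₁) := by rw [sh_sh]; funext x; simp [sh]
      rw [e1, e2]
      refine agree_trans (agree_sh (n := l₁ + 1) (by simp) ?_)
        (agree_sh (n := l₁ + 1) (by simp) hag)
      exact agree_mono (le_max_right _ _) hj
  obtain ⟨N, hN1, hN2⟩ := ((ulf_agree V (fun N => sh (2 * i N) h1) (l₀ + (2 * u).natAbs)).and
    (hV (eventually_ge_atTop (l₀ + (2 * u).natAbs)))).exists
  have hN3 : agree l₀ (sh (2 * u + 2 * i N) h1) a₀ := by
    rw [← sh_sh]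
    refine agree_trans (agree_sh (by rw [Int.abs_eq_natAbs]; push_cast; omega) hN1) ?_
    rw [← hhs]
    exact ha₀
  -- the three sets
  have key : ∀ (s s' x : ℤ), agree (l N) (sh (s - u) k) (a N) → agree (l N) (sh (s' - u) k) (a N) →
      agree (l N) (sh (x - u) k) (a N) → ∀ t : ℤ, |t| ≤ l₀ → h1 (s + x + t) = h1 (s' + x + t) := by
    intro s s' x hs1 hs2 hx t ht
    have e1 : ∀ᶠ z in q, agree (l N) (sh (z + (x - u)) g) (a N) := by
      rw [agree_iff, ← hk]; exact hx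
    have e2 : ∀ᶠ z in q, k (z + (s + x + t)) = h1 (s + x + t) := by
      rw [hh1]; exact ul_spec q k _
    have e3 : ∀ᶠ z in q, k (z + (s' + x + t)) = h1 (s' + x + t) := by
      rw [hh1]; exact ul_spec q k _
    have e4 : ∀ᶠ z in q, (l N : ℤ) - (x - u) ≤ z := hq (eventually_ge_atTop _)
    obtain ⟨z, z1, z2, z3, z4⟩ := (e1.and (e2.and (e3.and e4))).exists
    have ht' : |2 * u + t| ≤ N := by
      refine (abs_add_le _ _).trans ?_
      rw [Int.abs_eq_natAbs (2 * u)]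
      have : ((l₀ + (2 * u).natAbs : ℕ) : ℤ) ≤ N := by exact_mod_cast hN2
      rw [Nat.cast_add] at this
      linarith
    have f1 := haG N (sh (s - u) k) (Om_sh hkO _) hs1 (z + (x - u)) (by omega) z1 (2 * u + t) ht'
    have f2 := haG N (sh (s' - u) k) (Om_sh hkO _) hs2 (z + (x - u)) (by omega) z1 (2 * u + t) ht'
    have g1 : sh (s - u) k (z + (x - u) + (2 * u + t)) = k (z + (s + x + t)) := by
      simp only [sh]; congr 1; ring
    have g2 : sh (s' - u) k (z + (x - u) + (2 * u + t)) = k (z + (s' + x + t)) := by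
      simp only [sh]; congr 1; ring
    rw [g1, z2] at f1
    rw [g2, z3] at f2
    cases h3 : h1 (s + x + t) <;> cases h4 : h1 (s' + x + t) <;>
      cases h5 : g (2 * (z + (x - u)) + (2 * u + t)) <;> simp_all
  have key2 : ∀ (e e' x' : ℤ), agree l₀ (sh e h1) a₀ → agree l₀ (sh e' h1) a₀ →
      agree l₀ (sh x' k) a₀ → F (e + x') = F (e' + x') := by
    intro e e' x' he he' hx'
    have e1 : ∀ᶠ z in q, agree l₀ (sh (z + x') g) a₀ := by
      rw [agree_iff, ← hk]; exact hx'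
    have e2 : ∀ᶠ z in q, h1 (z + (e + x')) = F (e + x') := by
      rw [hF]; exact ul_spec q h1 _
    have e3 : ∀ᶠ z in q, h1 (z + (e' + x')) = F (e' + x') := by
      rw [hF]; exact ul_spec q h1 _
    have e4 : ∀ᶠ z in q, (l₀ : ℤ) - x' ≤ z := hq (eventually_ge_atTop _)
    obtain ⟨z, z1, z2, z3, z4⟩ := (e1.and (e2.and (e3.and e4))).exists
    have f1 := ha₀G (sh e h1) (Om_sh hh1O _) he (z + x') (by omega) z1 0 (by simp)
    have f2 := ha₀G (sh e' h1) (Om_sh hh1O _) he' (z + x') (by omega) z1 0 (by simp)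
    have g1 : sh e h1 (z + x' + 0) = h1 (z + (e + x')) := by
      simp only [sh]; congr 1; ring
    have g2 : sh e' h1 (z + x' + 0) = h1 (z + (e' + x')) := by
      simp only [sh]; congr 1; ring
    rw [g1, z2] at f1
    rw [g2, z3] at f2
    cases h3 : F (e + x') <;> cases h4 : F (e' + x') <;>
      cases h5 : g (2 * (z + x') + 0) <;> simp_all
  have hsum : ∀ s x, agree (l N) (sh (s - u) k) (a N) → agree (l N) (sh (x - u) k) (a N) →
      agree l₀ (sh (x + (i N + u)) h1) a₀ → agree l₀ (sh (s + x) h1) a₀ := by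
    intro s x hs hx hx2 j hj
    have h2 := key s (i N + u) x hs (by rw [add_sub_cancel_right]; exact hai N) hx j hj
    have h3 := hx2 j hj
    simp only [sh] at h3 ⊢
    rw [h2, ← h3]
    congr 1
    ring
  refine ⟨F, fun s => agree (l N) (sh (s - u) k) (a N),
    fun x => agree (l N) (sh (x - u) k) (a N) ∧ agree l₀ (sh (x + (i N + u)) h1) a₀,
    fun x => agree l₀ (sh x k) a₀, ?_, ?_, ?_, ?_, ?_⟩
  · have := hrec (fun z => agree (l N) (sh (z - u) g) (a N)) ⟨i N + u, by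
      have e : ∀ z : ℤ, z + (i N + u) - u = z + i N := fun z => by ring
      simp only [e]
      rw [agree_iff, ← hk]
      exact hai N⟩
    have e : ∀ z x : ℤ, z + x - u = z + (x - u) := fun z x => by ring
    simp only [e, agree_iff, ← hk] at this
    exact this
  · have := hrec (fun z => agree (l N) (sh (z - u) g) (a N) ∧
      agree l₀ (sh (z + (i N + u)) k) a₀) ⟨i N + u, by
      have e : ∀ z : ℤ, z + (i N + u) - u = z + i N := fun z => by ring
      have e' : ∀ z : ℤ, z + (i N + u) + (i N + u) = z + (2 * u + 2 * i N) := fun z => by ring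
      simp only [e, e', Filter.eventually_and]
      rw [agree_iff, agree_iff, ← hk, ← hh1]
      exact ⟨hai N, hN3⟩⟩
    have e : ∀ z x : ℤ, z + x - u = z + (x - u) := fun z x => by ring
    have e' : ∀ z x : ℤ, z + x + (i N + u) = z + (x + (i N + u)) := fun z x => by ring
    simp only [e, e', Filter.eventually_and, agree_iff, ← hk, ← hh1] at this
    exact this
  · obtain ⟨m, hm⟩ := hmin hkO ha₀O l₀
    have := hrec (fun z => agree l₀ (sh z g) a₀) ⟨m, by rw [agree_iff, ← hk]; exact hm⟩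
    simp only [agree_iff, ← hk] at this
    exact this
  · rintro s s' x y x' hs hs' ⟨hx1, hx2⟩ ⟨hy1, hy2⟩ hx'
    exact key2 _ _ _ (hsum s x hs hx1 hx2) (hsum s' y hs' hy1 hy2) hx'
  · intro n m
    obtain ⟨z₁, hz₁⟩ := (ul_agree q h1 n).exists
    rw [← hF] at hz₁
    obtain ⟨z₂, hz₂⟩ := (ul_agree q k (n + z₁.natAbs)).exists
    rw [← hh1] at hz₂
    obtain ⟨z₃, hz₃, hz₃'⟩ := ((ul_agree q g (n + (z₁ + z₂).natAbs)).and
      (hq (eventually_ge_atTop (m - (z₁ + z₂))))).exists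
    rw [← hk] at hz₃
    refine ⟨z₁ + z₂ + z₃, by omega, ?_⟩
    have h2 := agree_sh (m := n) (i := z₁) (by rw [Int.abs_eq_natAbs]; push_cast; omega) hz₂
    have h3 := agree_sh (m := n) (i := z₁ + z₂) (by rw [Int.abs_eq_natAbs]; push_cast; omega) hz₃
    rw [sh_sh] at h2 h3
    exact agree_trans h3 (agree_trans h2 hz₁)

end Pool.Agent.W634.Owings
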