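import Pool.Agent.W634.Owings.Const
import Pool.Agent.W634.Owings.Three

/-!
# Owings' problem: every 2-colouring has an infinite `X` with `X + X` monochromatic
-/

set_option autoImplicit false

namespace Pool.Agent.W634.Owings

open Filter

lemma synd_common {A B C : ℤ → Prop} (hA : Synd A) (hB : Synd B) (hC : Synd C) : ∃ G : ℤ, 0 ≤ G ∧
    (∀ a : ℤ, ∃ x, a ≤ x ∧ x ≤ a + G ∧ A x) ∧ (∀ a : ℤ, ∃ x, a ≤ x ∧ x ≤ a + G ∧ B x) ∧
    ∀ a : ℤ, ∃ x, a ≤ x ∧ x ≤ a + G ∧ C x := by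
  obtain ⟨G₁, h1, hA⟩ := hA
  obtain ⟨G₂, h2, hB⟩ := hB
  obtain ⟨G₃, h3, hC⟩ := hC
  refine ⟨G₁ + G₂ + G₃, by omega, fun a => ?_, fun a => ?_, fun a => ?_⟩
  · obtain ⟨x, hx1, hx2, hx3⟩ := hA a
    exact ⟨x, hx1, by omega, hx3⟩
  · obtain ⟨x, hx1, hx2, hx3⟩ := hB a
    exact ⟨x, hx1, by omega, hx3⟩
  · obtain ⟨x, hx1, hx2, hx3⟩ := hC a
    exact ⟨x, hx1, by omega, hx3⟩

/-- fixed frequencies, by compactness -/
theorem bohr_const' {F : ℤ → Bool} {K : ℕ} {η : ℝ} (hη : 0 < η)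
    (H : ∀ M : ℕ, ∃ (θ : Fin K → ℝ) (n₀ : ℤ) (ε : Bool),
      (∀ i, θ i ∈ Set.Icc (0 : ℝ) 1) ∧ ∀ d : ℤ, |d| ≤ M → Bohr θ η d → F (n₀ + d) = ε) :
    ∃ θ : Fin K → ℝ, ∀ M : ℕ, ∃ (n₀ : ℤ) (ε : Bool),
      ∀ d : ℤ, |d| ≤ M → Bohr θ (η / 2) d → F (n₀ + d) = ε := by
  choose θ n₀ ε hθ hF using H
  have hcomp : IsCompact (Set.pi Set.univ fun _ : Fin K => Set.Icc (0 : ℝ) 1) :=
    isCompact_univ_pi fun _ => isCompact_Icc
  obtain ⟨φ, -, hφ⟩ := hcomp.ultrafilter_le_nhds ((hyperfilter ℕ).map θ) (by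
    rw [Ultrafilter.coe_map, le_principal_iff, mem_map]
    exact Filter.univ_mem' fun M => by
      change θ M ∈ Set.pi Set.univ fun _ : Fin K => Set.Icc (0 : ℝ) 1
      exact fun i _ => hθ M i)
  rw [Ultrafilter.coe_map] at hφ
  refine ⟨φ, fun M => ?_⟩
  have h1 : ∀ᶠ N in (hyperfilter ℕ : Filter ℕ), ∀ i, |θ N i - φ i| < η / (2 * (M + 1)) := by
    rw [Filter.eventually_all]
    intro i
    have h2 : Tendsto (fun N => θ N i) (hyperfilter ℕ : Filter ℕ) (nhds (φ i)) :=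
      ((continuous_apply i).tendsto φ).comp hφ
    have h3 := (Metric.tendsto_nhds.1 h2) (η / (2 * (M + 1))) (by positivity)
    filter_upwards [h3] with N hN
    rwa [Real.dist_eq] at hN
  obtain ⟨N, hN1, hN2⟩ := (h1.and (Nat.hyperfilter_le_atTop (eventually_ge_atTop M))).exists
  refine ⟨n₀ N, ε N, fun d hd hB => hF N d (hd.trans (by exact_mod_cast hN2)) fun i => ?_⟩
  obtain ⟨m, hm⟩ := hB i
  refine ⟨m, ?_⟩
  have h2 := hN1 i
  have h3 : |(θ N i - φ i) * d| ≤ η / 2 := by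
    rw [abs_mul]
    have h4 : |(d : ℝ)| ≤ M := by exact_mod_cast hd
    calc |θ N i - φ i| * |(d : ℝ)| ≤ η / (2 * (M + 1)) * (M + 1) :=
          mul_le_mul h2.le (h4.trans (by linarith)) (abs_nonneg _) (by positivity)
      _ = η / 2 := by field_simp
  have h5 : θ N i * d - m = (θ N i - φ i) * d + (φ i * d - m) := by ring
  rw [h5]
  refine (abs_add_le _ _).trans_lt ?_
  linarith

theorem main (g : ℤ → Bool) : ¬ NB g := by
  intro hg
  obtain ⟨F, A, B, C, hA, hB, hC, h3, hpat⟩ := threefold hg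
  obtain ⟨G, hG0, hA', hB', hC'⟩ := synd_common hA hB hC
  obtain ⟨K, η, hη, H⟩ := bohr_const hG0 F A B C hA' hB' hC' h3
  obtain ⟨θ, hθ⟩ := bohr_const' hη H
  -- the radius
  obtain ⟨δ, hδ, hδ1, hδ2⟩ : ∃ δ : ℝ, 0 < δ ∧ δ ≤ η / 4 ∧ δ ≤ 1 / 8 :=
    ⟨min (η / 4) (1 / 8), by positivity, min_le_left _ _, min_le_right _ _⟩
  -- runs of `g`
  have hrun : ∀ L : ℕ, ∃ (y : ℤ) (ε : Bool), 2 * L ≤ y ∧
      ∀ d : ℤ, |d| ≤ L → Bohr θ (η / 2) d → g (y + d) = ε := by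
    intro L
    obtain ⟨n₀, ε, h⟩ := hθ L
    obtain ⟨z, hz1, hz2⟩ := hpat (n₀.natAbs + L) (2 * L - n₀)
    refine ⟨z + n₀, ε, by omega, fun d hd hB => ?_⟩
    rw [← h d hd hB]
    have hd' := abs_le.1 hd
    have hn := abs_le.1 (Int.abs_eq_natAbs n₀).le
    have := hz2 (n₀ + d) (by rw [abs_le, Nat.cast_add]; constructor <;> linarith [hn.1, hn.2, hd'.1, hd'.2])
    simp only [sh] at this
    rw [← this]
    congr 1
    ring
  choose y ε hy hgy using hrun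
  -- cells
  obtain ⟨n, hn⟩ := exists_nat_gt (1 / δ)
  have hn0 : n ≠ 0 := by
    rintro rfl
    have : (0 : ℝ) < 1 / δ := by positivity
    rw [Nat.cast_zero] at hn
    linarith
  have : NeZero n := ⟨hn0⟩
  obtain ⟨c, hc⟩ := ult_const (hyperfilter ℕ) fun L => (fun i => cell n (θ i * y L) : Fin K → Fin n)
  obtain ⟨L₁, hL₁⟩ := hc.exists
  have hP := mid_bohr θ δ hδ hδ2 (y L₁)
  have hS := synd_bohr θ δ hδ (y L₁)
  obtain ⟨L, hL⟩ := no_long_runs hg hP hS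
  obtain ⟨N, hN1, hN2⟩ :=
    (hc.and (Nat.hyperfilter_le_atTop (eventually_ge_atTop L.toNat))).exists
  refine hL (y N - N) (y N + N) (ε N) ?_ ?_ fun x hx1 hx2 hx => ?_
  · have := hy N
    omega
  · omega
  · have h1 := hgy N (x - y N) (by rw [abs_le]; omega) (fun i => ?_)
    · rwa [add_sub_cancel] at h1
    · obtain ⟨m, hm⟩ := hx i
      have h2 := cell_eq ((congrFun hL₁ i).trans (congrFun hN1 i).symm)
      have e1 := Int.self_sub_floor (θ i * y L₁)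
      have e2 := Int.self_sub_floor (θ i * y N)
      refine ⟨m + ⌊θ i * y L₁⌋ - ⌊θ i * y N⌋, ?_⟩
      have e3 : θ i * ((x - y N : ℤ) : ℝ) - ((m + ⌊θ i * y L₁⌋ - ⌊θ i * y N⌋ : ℤ) : ℝ) =
          (θ i * ((x - y L₁ : ℤ) : ℝ) - m) +
            (Int.fract (θ i * y L₁) - Int.fract (θ i * y N)) := by
        push_cast
        linear_combination e1 - e2
      rw [e3]
      refine (abs_add_le _ _).trans_lt ?_
      have h4 : 1 / (n : ℝ) < δ := by
        rw [div_lt_iff₀ (by positivity)]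
        rw [div_lt_iff₀ hδ] at hn
        linarith
      linarith

/-- **Owings' problem** for the natural numbers. -/
theorem owings (c : ℕ → Bool) : ∃ X : Set ℕ, X.Infinite ∧ ∃ ε, ∀ x ∈ X, ∀ y ∈ X, c (x + y) = ε := by
  have h := main fun z : ℤ => c (2 * z).toNat
  unfold NB at h
  push Not at h
  obtain ⟨x, hx, hpos, hpar, ε, h1, h2⟩ := h
  refine ⟨Set.range fun i => (x i).toNat, ?_, ε, ?_⟩
  · apply Set.infinite_range_of_injective
    intro i j hij
    have h3 := hpos i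
    have h4 := hpos j
    simp only at hij
    exact hx.injective (by omega)
  · rintro _ ⟨i, rfl⟩ _ ⟨j, rfl⟩
    have h3 := hpos i
    have h4 := hpos j
    dsimp only
    have key : ∀ i j, i < j → c ((x i).toNat + (x j).toNat) = ε := by
      intro i j hij
      have h5 := h2 i j hij
      have h3 := hpos i
      have h4 := hpos j
      have h6 := hpar i j
      rw [← h5]
      congr 1
      omega
    rcases lt_trichotomy i j with hij | rfl | hij
    · exact key i j hij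
    · rw [← h1 i]
      congr 1
      omega
    · rw [add_comm]
      exact key j i hij

end Pool.Agent.W634.Owings
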