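import Mathlib

/-!
# Owings' problem: the flipping property of ultrafilters

`NB g`: there is no strictly increasing sequence of positive integers of one parity on which `g` is
constant and takes the same value at all midpoints.
-/

set_option autoImplicit false

namespace Pool.Agent.W634.Owings

open Filter

/-- no bad sequence -/
def NB (g : ℤ → Bool) : Prop :=
  ∀ x : ℕ → ℤ, StrictMono x → (∀ i, 0 < x i) → (∀ i j, (2 : ℤ) ∣ x i + x j) → ∀ ε : Bool,
    ¬ ((∀ i, g (x i) = ε) ∧ ∀ i j, i < j → g ((x i + x j) / 2) = ε)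

/-- a function to a finite type is constant along an ultrafilter -/
lemma ult_const {α κ : Type*} [Finite κ] (U : Ultrafilter α) (f : α → κ) :
    ∃ c, ∀ᶠ x in U, f x = c := by
  have := (U.eventually_exists_iff (P := fun (c : κ) x => f x = c)).1
    (Eventually.of_forall fun x => ⟨f x, rfl⟩)
  exact this

/-- Flipping property of ultrafilters on the positive integers. -/
theorem flip {g : ℤ → Bool} (hg : NB g) (U : Ultrafilter ℤ) (hU : (U : Filter ℤ) ≤ atTop)
    (ε : Bool) (hε : ∀ᶠ x in U, g x = ε) :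
    ∀ᶠ x in U, ∀ᶠ y in U, (2 : ℤ) ∣ x + y ∧ g ((x + y) / 2) = !ε := by
  obtain ⟨r, hr⟩ := ult_const U (fun x : ℤ => decide ((2 : ℤ) ∣ x))
  have hpar : ∀ᶠ x in U, ∀ᶠ y in U, (2 : ℤ) ∣ x + y := by
    filter_upwards [hr] with x hx
    filter_upwards [hr] with y hy
    have hxy : ((2 : ℤ) ∣ x) ↔ ((2 : ℤ) ∣ y) := by
      rw [← decide_eq_decide]; rw [hx, hy]
    omega
  by_contra hcon
  have h1 : ∀ᶠ x in U, ∀ᶠ y in U, g ((x + y) / 2) = ε := by
    rcases U.em (fun x => ∀ᶠ y in U, g ((x + y) / 2) = ε) with h | h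
    · exact h
    · exfalso
      apply hcon
      filter_upwards [h, hpar] with x hx hx'
      have : ∀ᶠ y in U, ¬ g ((x + y) / 2) = ε := Ultrafilter.eventually_not.2 hx
      filter_upwards [this, hx'] with y hy hy'
      refine ⟨hy', ?_⟩
      cases ε <;> cases hh : g ((x + y) / 2) <;> simp_all
  obtain ⟨x, hx1, hx2⟩ := exists_seq_of_forall_finset_exists
    (fun x : ℤ => g x = ε ∧ decide ((2 : ℤ) ∣ x) = r ∧ 0 < x ∧ ∀ᶠ y in U, g ((x + y) / 2) = ε)
    (fun x y => x < y ∧ g ((x + y) / 2) = ε) (by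
      intro s hs
      have e1 : ∀ᶠ y in U, (0 : ℤ) < y := hU (eventually_gt_atTop 0)
      have e2 : ∀ᶠ y in U, ∀ x ∈ s, x < y ∧ g ((x + y) / 2) = ε := by
        rw [Filter.eventually_all_finset]
        intro x hx
        have e3 : ∀ᶠ y in U, x < y := hU (eventually_gt_atTop x)
        filter_upwards [e3, (hs x hx).2.2.2] with y h1 h2
        exact ⟨h1, h2⟩
      obtain ⟨y, hy1, hy2, hy3, hy4, hy5⟩ := (hε.and (hr.and (e1.and (h1.and e2)))).exists
      exact ⟨y, ⟨hy1, hy2, hy3, hy4⟩, hy5⟩)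
  refine hg x (strictMono_nat_of_lt_succ fun n => (hx2 n (n + 1) (Nat.lt_succ_self n)).1)
    (fun i => (hx1 i).2.2.1) ?_ ε ⟨fun i => (hx1 i).1, fun i j hij => (hx2 i j hij).2⟩
  intro i j
  have hxy : ((2 : ℤ) ∣ x i) ↔ ((2 : ℤ) ∣ x j) := by
    rw [← decide_eq_decide]; rw [(hx1 i).2.1, (hx1 j).2.1]
  omega

/-- Flipping property along a sequence tending to infinity. -/
theorem flip_seq {g : ℤ → Bool} (hg : NB g) (V : Ultrafilter ℕ) (x : ℕ → ℤ)
    (hx : Tendsto x V atTop) (ε : Bool) (hε : ∀ᶠ n in V, g (x n) = ε) :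
    ∀ᶠ n in V, ∀ᶠ m in V, (2 : ℤ) ∣ x n + x m ∧ g ((x n + x m) / 2) = !ε := by
  have := flip hg (V.map x) (by rw [Ultrafilter.coe_map]; exact hx) ε (by
    simpa [Ultrafilter.coe_map] using hε)
  simpa [Ultrafilter.coe_map, Filter.eventually_map] using this

end Pool.Agent.W634.Owings
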