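import Pool.Agent.W634.Owings.Runs

/-!
# Owings' problem: Bohr sets are syndetic and have the midpoint property
-/

set_option autoImplicit false

namespace Pool.Agent.W634.Owings

/-- Bohr sets of integers -/
def Bohr {K : ℕ} (θ : Fin K → ℝ) (η : ℝ) (x : ℤ) : Prop := ∀ i, ∃ m : ℤ, |θ i * x - m| < η

/-- cells of the circle -/
noncomputable def cell (n : ℕ) [NeZero n] (r : ℝ) : Fin n := Fin.ofNat n (⌊n * Int.fract r⌋).toNat

lemma cell_eq {n : ℕ} [NeZero n] {r s : ℝ} (h : cell n r = cell n s) :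
    |Int.fract r - Int.fract s| < 1 / n := by
  have hn : (0 : ℝ) < n := by exact_mod_cast Nat.pos_of_ne_zero (NeZero.ne n)
  have key : ∀ r : ℝ, 0 ≤ ⌊n * Int.fract r⌋ ∧ ⌊n * Int.fract r⌋ < n := by
    intro r
    constructor
    · exact Int.floor_nonneg.2 (mul_nonneg hn.le (Int.fract_nonneg r))
    · rw [Int.floor_lt]
      have := Int.fract_lt_one r
      push_cast
      nlinarith
  have h1 := congrArg Fin.val h
  unfold cell at h1
  simp only [Fin.val_ofNat] at h1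
  rw [Nat.mod_eq_of_lt (by have := key r; omega), Nat.mod_eq_of_lt (by have := key s; omega)] at h1
  have h2 : ⌊n * Int.fract r⌋ = ⌊n * Int.fract s⌋ := by
    have := key r
    have := key s
    omega
  have h3 := Int.abs_sub_lt_one_of_floor_eq_floor h2
  rw [← mul_sub, abs_mul, abs_of_pos hn] at h3
  rw [lt_div_iff₀ hn]
  linarith

lemma near_shift (r η : ℝ) (k : ℤ) : (∃ m : ℤ, |r + k - m| < η) ↔ ∃ m : ℤ, |r - m| < η := by
  constructor
  · rintro ⟨m, hm⟩
    exact ⟨m - k, by push_cast; rwa [show r - (m - k) = r + k - m by ring]⟩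
  · rintro ⟨m, hm⟩
    exact ⟨m + k, by push_cast; rwa [show r + k - (m + k) = r - m by ring]⟩

lemma fract_add_int' (r : ℝ) (k : ℤ) : Int.fract (r + k) = Int.fract r := Int.fract_add_intCast r k

/-- side and distance: real form of the midpoint property -/
lemma mid_real {X Y η : ℝ} (hη : 0 < η) (hη8 : η ≤ 1 / 8) (hXY : |X - Y| < 1 / 8)
    (h1 : (∃ m : ℤ, |X - m| < η) ↔ ∃ m : ℤ, |Y - m| < η)
    (h2 : Int.fract X < 1 / 2 ↔ Int.fract Y < 1 / 2) :
    (∃ m : ℤ, |(X + Y) / 2 - m| < η) ↔ ∃ m : ℤ, |X - m| < η := by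
  have hXY' := abs_lt.1 hXY
  by_cases hX : ∃ m : ℤ, |X - m| < η
  · simp only [hX, iff_true]
    obtain ⟨m, hm⟩ := hX
    obtain ⟨m', hm'⟩ := h1.1 ⟨m, hm⟩
    have hm1 := abs_lt.1 hm
    have hm2 := abs_lt.1 hm'
    have h3 : m = m' := by
      have h4 : (m : ℝ) - m' < 1 := by linarith
      have h5 : (m' : ℝ) - m < 1 := by linarith
      have h4' : m - m' < 1 := by exact_mod_cast h4
      have h5' : m' - m < 1 := by exact_mod_cast h5
      omega
    subst h3
    exact ⟨m, abs_lt.2 ⟨by linarith, by linarith⟩⟩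
  · have hY : ¬ ∃ m : ℤ, |Y - m| < η := fun h => hX (h1.2 h)
    simp only [hX, iff_false]
    rintro ⟨m, hm⟩
    have hm1 := abs_lt.1 hm
    push Not at hX hY
    have hXm := hX m
    have hYm := hY m
    have key : ∀ W : ℝ, -(1/2) < W - m → W - m < 1 / 2 → η ≤ |W - m| →
        (Int.fract W < 1 / 2 ∧ η ≤ W - m) ∨ (¬ Int.fract W < 1 / 2 ∧ W - m ≤ -η) := by
      intro W hW1 hW2 hW3
      rcases le_or_gt 0 (W - m) with h | h
      · left
        rw [abs_of_nonneg h] at hW3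
        have : Int.fract W = W - m := by
          rw [Int.fract_eq_iff]
          exact ⟨h, by linarith, m, by ring⟩
        rw [this]
        exact ⟨hW2, hW3⟩
      · right
        rw [abs_of_neg h] at hW3
        have : Int.fract W = W - m + 1 := by
          rw [Int.fract_eq_iff]
          exact ⟨by linarith, by linarith, m - 1, by push_cast; ring⟩
        rw [this]
        exact ⟨by push Not; linarith, by linarith⟩
    have kX := key X (by linarith) (by linarith) hXm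
    have kY := key Y (by linarith) (by linarith) hYm
    rcases kX with kX | kX <;> rcases kY with kY | kY
    · linarith [kX.2, kY.2]
    · exact kY.1 (h2.1 kX.1)
    · exact kX.1 (h2.2 kY.1)
    · linarith [kX.2, kY.2]

theorem mid_one (θ η : ℝ) (hη : 0 < η) (hη8 : η ≤ 1 / 8) (x y : ℤ)
    (h1 : cell 16 (θ * ((x / 2 : ℤ) : ℝ)) = cell 16 (θ * ((y / 2 : ℤ) : ℝ)))
    (h2 : (∃ m : ℤ, |θ * x - m| < η) ↔ ∃ m : ℤ, |θ * y - m| < η)
    (h3 : Int.fract (θ * x) < 1 / 2 ↔ Int.fract (θ * y) < 1 / 2) (h4 : (2 : ℤ) ∣ x + y) :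
    (∃ m : ℤ, |θ * ((x + y) / 2 : ℤ) - m| < η) ↔ ∃ m : ℤ, |θ * x - m| < η := by
  obtain ⟨e, x₁, y₁, hx, hy⟩ : ∃ e x₁ y₁ : ℤ, x = 2 * x₁ + e ∧ y = 2 * y₁ + e :=
    ⟨x % 2, x / 2, y / 2, by omega, by omega⟩
  obtain ⟨e, he, x₁, y₁, hx, hy⟩ : ∃ e : ℤ, (e = 0 ∨ e = 1) ∧ ∃ x₁ y₁ : ℤ,
      x = 2 * x₁ + e ∧ y = 2 * y₁ + e :=
    ⟨x % 2, by omega, x / 2, y / 2, by omega, by omega⟩
  have hx2 : x / 2 = x₁ := by omega
  have hy2 : y / 2 = y₁ := by omega
  have hz : (x + y) / 2 = x₁ + y₁ + e := by omega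
  rw [hx2, hy2] at h1
  have h5 := cell_eq h1
  have h6 := Int.self_sub_floor (θ * x₁)
  have h7 := Int.self_sub_floor (θ * y₁)
  set b := Int.fract (θ * x₁) with hb
  set b' := Int.fract (θ * y₁) with hb'
  set k := ⌊θ * x₁⌋
  set k' := ⌊θ * y₁⌋
  have ex : θ * x = (2 * b + θ * e) + ((2 * k : ℤ) : ℝ) := by
    rw [hx]; push_cast; linear_combination 2 * h6
  have ey : θ * y = (2 * b' + θ * e) + ((2 * k' : ℤ) : ℝ) := by
    rw [hy]; push_cast; linear_combination 2 * h7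
  have ez : θ * (((x + y) / 2 : ℤ) : ℝ) =
      ((2 * b + θ * e) + (2 * b' + θ * e)) / 2 + ((k + k' : ℤ) : ℝ) := by
    rw [hz]; push_cast; linear_combination h6 + h7
  rw [ex, fract_add_int', ey, fract_add_int'] at h3
  rw [ex, ey] at h2
  rw [near_shift, near_shift] at h2
  rw [ex, ez, near_shift, near_shift]
  apply mid_real hη hη8 _ h2 h3
  rw [show (2 * b + θ * e) - (2 * b' + θ * e) = 2 * (b - b') by ring, abs_mul]
  norm_num at h5 ⊢
  linarith

theorem mid_bohr {K : ℕ} (θ : Fin K → ℝ) (η : ℝ) (hη : 0 < η) (hη8 : η ≤ 1 / 8) (y₀ : ℤ) :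
    Mid fun x => Bohr θ η (x - y₀) := by
  classical
  refine ⟨Fin K → Fin 16 × Bool × Bool, inferInstance, fun x i =>
    (cell 16 (θ i * (((x - y₀) / 2 : ℤ) : ℝ)),
      decide (∃ m : ℤ, |θ i * ((x - y₀ : ℤ) : ℝ) - m| < η),
      decide (Int.fract (θ i * ((x - y₀ : ℤ) : ℝ)) < 1 / 2)), ?_⟩
  intro x y hxy h2
  have h4 : (2 : ℤ) ∣ (x - y₀) + (y - y₀) := by omega
  have h5 : (x + y) / 2 - y₀ = ((x - y₀) + (y - y₀)) / 2 := by omega
  unfold Bohr
  beta_reduce
  rw [h5]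
  apply forall_congr'
  intro i
  have h := congrFun hxy i
  simp only [Prod.mk.injEq, decide_eq_decide] at h
  exact mid_one (θ i) η hη hη8 _ _ h.1 h.2.1 h.2.2 h4

theorem synd_bohr {K : ℕ} (θ : Fin K → ℝ) (η : ℝ) (hη : 0 < η) (y₀ : ℤ) :
    Synd fun x => Bohr θ η (x - y₀) := by
  classical
  obtain ⟨n, hn⟩ := exists_nat_gt (1 / η)
  have hn0 : n ≠ 0 := by
    rintro rfl
    have : (0 : ℝ) < 1 / η := by positivity
    simp at hn
    linarith [inv_pos.2 hη]
  have : NeZero n := ⟨hn0⟩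
  let C : ℤ → (Fin K → Fin n) := fun x i => cell n (θ i * x)
  have hC : ∀ x y, C x = C y → Bohr θ η (x - y) := by
    intro x y hxy i
    have h1 := cell_eq (congrFun hxy i)
    refine ⟨⌊θ i * x⌋ - ⌊θ i * y⌋, ?_⟩
    have h2 := Int.self_sub_floor (θ i * x)
    have h3 := Int.self_sub_floor (θ i * y)
    have h4 : θ i * ((x - y : ℤ) : ℝ) - ((⌊θ i * x⌋ - ⌊θ i * y⌋ : ℤ) : ℝ) =
        Int.fract (θ i * x) - Int.fract (θ i * y) := by
      push_cast
      linear_combination h2 - h3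
    rw [h4]
    refine h1.trans ?_
    rw [div_lt_iff₀ (by positivity)]
    rw [div_lt_iff₀ hη] at hn
    linarith
  -- representatives of the cells
  let r : (Fin K → Fin n) → ℤ := fun c => if h : ∃ x, C x = c then h.choose else 0
  have hr : ∀ x, C (r (C x)) = C x := by
    intro x
    have h : ∃ x', C x' = C x := ⟨x, rfl⟩
    simp only [r, dif_pos h]
    exact h.choose_spec
  obtain ⟨R, hR⟩ : ∃ R : ℤ, ∀ c, |r c| ≤ R := by
    obtain ⟨R, hR⟩ := (Set.finite_range fun c => |r c|).bddAbove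
    exact ⟨R, fun c => hR ⟨c, rfl⟩⟩
  have hR0 : 0 ≤ R := (abs_nonneg _).trans (hR (C 0))
  refine ⟨2 * R, by omega, fun a => ⟨y₀ + ((a - y₀ + R) - r (C (a - y₀ + R))), ?_, ?_, ?_⟩⟩
  · have := abs_le.1 (hR (C (a - y₀ + R)))
    omega
  · have := abs_le.1 (hR (C (a - y₀ + R)))
    omega
  · have h := hC (a - y₀ + R) (r (C (a - y₀ + R))) (hr _).symm
    have e : y₀ + ((a - y₀ + R) - r (C (a - y₀ + R))) - y₀ =
      (a - y₀ + R) - r (C (a - y₀ + R)) := by ring
    beta_reduce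
    rw [e]
    exact h

end Pool.Agent.W634.Owings
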