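import Pool.Agent.W634.Owings.Fourier2

set_option autoImplicit false

namespace Pool.Agent.W634.Owings

open Finset

theorem bohr_const {G : ℤ} (hG : 0 ≤ G) (F : ℤ → Bool) (A B C : ℤ → Prop)
    (hA : ∀ a : ℤ, ∃ x, a ≤ x ∧ x ≤ a + G ∧ A x) (hB : ∀ a : ℤ, ∃ x, a ≤ x ∧ x ≤ a + G ∧ B x)
    (hC : ∀ a : ℤ, ∃ x, a ≤ x ∧ x ≤ a + G ∧ C x)
    (h3 : ∀ s s' x y x', A s → A s' → B x → B y → C x' → F (s + x + x') = F (s' + y + x')) :
    ∃ (K : ℕ) (η : ℝ), 0 < η ∧ ∀ M : ℕ, ∃ (θ : Fin K → ℝ) (n₀ : ℤ) (ε : Bool),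
      (∀ i, θ i ∈ Set.Icc (0 : ℝ) 1) ∧ ∀ d : ℤ, |d| ≤ M → Bohr θ η d → F (n₀ + d) = ε := by
  classical
  obtain ⟨g1, hg1⟩ : ∃ g1 : ℕ, g1 = G.toNat + 1 := ⟨_, rfl⟩
  have hg1p : (0 : ℝ) < g1 := by rw [hg1]; positivity
  obtain ⟨κ, hκ⟩ : ∃ κ : ℝ, κ = 1 / (12 * (g1 : ℝ) ^ 3) := ⟨_, rfl⟩
  have hκp : 0 < κ := by rw [hκ]; positivity
  refine ⟨576 * g1 ^ 6, κ / (2 * Real.pi), by positivity, fun M => ?_⟩
  obtain ⟨T₁, hT₁⟩ : ∃ T₁ : ℕ, T₁ = 2 * M + 1 := ⟨_, rfl⟩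
  obtain ⟨T, hT⟩ : ∃ T : ℕ, T = g1 * T₁ := ⟨_, rfl⟩
  have hT0 : 0 < T := by rw [hT, hg1, hT₁]; positivity
  have hMT : 2 * M ≤ T := by
    rw [hT, hg1, hT₁]
    nlinarith [Nat.zero_le G.toNat, Nat.zero_le M]
  obtain ⟨A', hA'⟩ : ∃ A', A' = (Finset.Ico (0 : ℤ) (T : ℤ)).filter A := ⟨_, rfl⟩
  obtain ⟨B', hB'⟩ : ∃ B', B' = (Finset.Ico (0 : ℤ) (T : ℤ)).filter B := ⟨_, rfl⟩
  obtain ⟨C', hC'⟩ : ∃ C', C' = (Finset.Ico (0 : ℤ) (T : ℤ)).filter C := ⟨_, rfl⟩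
  have mA : ∀ s ∈ A', (0 ≤ s ∧ s < T) ∧ A s := fun s hs => by
    rw [hA', mem_filter, Finset.mem_Ico] at hs; exact hs
  have mB : ∀ s ∈ B', (0 ≤ s ∧ s < T) ∧ B s := fun s hs => by
    rw [hB', mem_filter, Finset.mem_Ico] at hs; exact hs
  have mC : ∀ s ∈ C', (0 ≤ s ∧ s < T) ∧ C s := fun s hs => by
    rw [hC', mem_filter, Finset.mem_Ico] at hs; exact hs
  have cA : T₁ ≤ A'.card := by rw [hA', hT, hg1]; exact card_ge hG A hA T₁
  have cB : T₁ ≤ B'.card := by rw [hB', hT, hg1]; exact card_ge hG B hB T₁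
  have cC : T₁ ≤ C'.card := by rw [hC', hT, hg1]; exact card_ge hG C hC T₁
  obtain ⟨s₁, -, -, hs₁⟩ := hA 0
  obtain ⟨x₁, -, -, hx₁⟩ := hB 0
  obtain ⟨σ, hσ⟩ : ∃ σ : ℤ → ℝ, ∀ n, σ n = if F n then 1 else -1 := ⟨_, fun _ => rfl⟩
  have hσ1 : ∀ n, |σ n| = 1 := by intro n; rw [hσ]; split_ifs <;> simp
  obtain ⟨w, hw⟩ : ∃ w : ℤ → ℝ, ∀ y, w y = σ (s₁ + x₁ + y) := ⟨_, fun _ => rfl⟩
  have hwσ : ∀ s ∈ A', ∀ x ∈ B', ∀ y ∈ C', w y = σ (s + x + y) := by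
    intro s hs x hx y hy
    rw [hw, hσ, hσ, h3 s₁ s x₁ x y hs₁ (mA s hs).2 hx₁ (mB x hx).2 (mC y hy).2]
  have hw1 : ∀ y, |w y| ≤ 1 := fun y => by rw [hw]; exact (hσ1 _).le
  have hrep : ∀ n, rep A' B' C' w n = σ n * rep A' B' C' (fun _ => 1) n := by
    intro n
    unfold rep
    rw [mul_sum]
    refine sum_congr rfl fun s hs => ?_
    rw [mul_sum]
    refine sum_congr rfl fun x hx => ?_
    rw [mul_sum]
    refine sum_congr rfl fun y hy => ?_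
    split_ifs with h
    · rw [hwσ s hs x hx y hy, h, mul_one]
    · simp
  have hrnn : ∀ n, 0 ≤ rep A' B' C' (fun _ => 1) n := by
    intro n
    unfold rep
    refine sum_nonneg fun s _ => sum_nonneg fun x _ => sum_nonneg fun y _ => ?_
    split_ifs <;> norm_num
  -- a popular value
  have htot : ∑ n ∈ Finset.Ico (0 : ℤ) (3 * T : ℕ), rep A' B' C' (fun _ => 1) n =
      (A'.card : ℝ) * B'.card * C'.card := by
    have e : ∀ s ∈ A', ∀ x ∈ B', ∀ y ∈ C', ∑ n ∈ Finset.Ico (0 : ℤ) (3 * T : ℕ),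
        (if s + x + y = n then (1 : ℝ) else 0) = 1 := by
      intro s hs x hx y hy
      have h1 := (mA s hs).1
      have h2 := (mB x hx).1
      have h4 := (mC y hy).1
      rw [sum_ite_eq, if_pos]
      rw [Finset.mem_Ico]
      push_cast
      omega
    unfold rep
    rw [sum_comm]
    have e1 : ∀ s ∈ A', ∑ n ∈ Finset.Ico (0 : ℤ) (3 * T : ℕ), ∑ x ∈ B', ∑ y ∈ C',
        (if s + x + y = n then (1 : ℝ) else 0) = B'.card * C'.card := by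
      intro s hs
      rw [sum_comm]
      have e2 : ∀ x ∈ B', ∑ n ∈ Finset.Ico (0 : ℤ) (3 * T : ℕ), ∑ y ∈ C',
          (if s + x + y = n then (1 : ℝ) else 0) = C'.card := by
        intro x hx
        rw [sum_comm, sum_congr rfl fun y hy => e s hs x hx y hy]
        simp
      rw [sum_congr rfl e2]
      simp
    rw [sum_congr rfl e1]
    simp [mul_assoc]
  have hne0 : (Finset.Ico (0 : ℤ) (3 * T : ℕ)).Nonempty :=
    ⟨0, by rw [Finset.mem_Ico]; exact ⟨le_rfl, by exact_mod_cast Nat.mul_pos (by norm_num) hT0⟩⟩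
  obtain ⟨n₀, hn₀, hn₀r⟩ := Finset.exists_le_of_sum_le (s := Finset.Ico (0 : ℤ) (3 * T : ℕ))
    (f := fun _ => (A'.card : ℝ) * B'.card * C'.card / (3 * T))
    (g := fun n => rep A' B' C' (fun _ => 1) n) hne0 (by
      rw [htot, sum_const, nsmul_eq_mul]
      simp only [Int.card_Ico, sub_zero, Int.toNat_natCast]
      have : (T : ℝ) ≠ 0 := by exact_mod_cast hT0.ne'
      push_cast
      apply le_of_eq
      field_simp)
  rw [Finset.mem_Ico] at hn₀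
  push_cast at hn₀
  have hT'' : (T : ℝ) = g1 * T₁ := by rw [hT]; push_cast; ring
  have hT₁p : (0 : ℝ) < T₁ := by rw [hT₁]; positivity
  have hlow : (T : ℝ) ^ 2 / (3 * (g1 : ℝ) ^ 3) ≤ rep A' B' C' (fun _ => 1) n₀ := by
    refine le_trans ?_ hn₀r
    have h5 : (T₁ : ℝ) ^ 3 ≤ (A'.card : ℝ) * B'.card * C'.card := by
      have a1 : (T₁ : ℝ) ≤ A'.card := by exact_mod_cast cA
      have a2 : (T₁ : ℝ) ≤ B'.card := by exact_mod_cast cB
      have a3 : (T₁ : ℝ) ≤ C'.card := by exact_mod_cast cC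
      calc (T₁ : ℝ) ^ 3 = T₁ * T₁ * T₁ := by ring
        _ ≤ _ := mul_le_mul (mul_le_mul a1 a2 hT₁p.le (by positivity)) a3 hT₁p.le (by positivity)
    calc (T : ℝ) ^ 2 / (3 * (g1 : ℝ) ^ 3) = (T₁ : ℝ) ^ 3 / (3 * T) := by
          rw [hT'']; field_simp
      _ ≤ _ := div_le_div_of_nonneg_right h5 (by positivity)
  -- frequencies
  obtain ⟨S, hS⟩ : ∃ S, S = (range (4 * T)).filter fun ξ => κ * T ≤ ‖tr (4 * T) C' w ξ‖ := ⟨_, rfl⟩
  have hScard : S.card ≤ 576 * g1 ^ 6 := by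
    have h5 := spec_card hT0 C' (fun s hs => (mC s hs).1) w hw1 κ hκp
    rw [← hS] at h5
    have h6 : (S.card : ℝ) ≤ 576 * (g1 : ℝ) ^ 6 := by
      rw [hκ] at h5
      have h7 : (S.card : ℝ) * (1 / (12 * (g1 : ℝ) ^ 3)) ^ 2 = S.card / (144 * (g1 : ℝ) ^ 6) := by
        field_simp
        ring
      rw [h7, div_le_iff₀ (by positivity)] at h5
      linarith
    exact_mod_cast h6
  have hSmem : ∀ ξ, ξ ∈ S → ξ < 4 * T := fun ξ h => by
    rw [hS, mem_filter, Finset.mem_range] at h; exact h.1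
  refine ⟨fun i => if h : (i : ℕ) < S.card then ((S.equivFin.symm ⟨i, h⟩ : ℕ) : ℝ) / (4 * T : ℕ)
    else 0, n₀, F n₀, ?_, ?_⟩
  · intro i
    dsimp only
    split_ifs with h
    · have h5 := hSmem _ (S.equivFin.symm ⟨i, h⟩).2
      constructor
      · positivity
      · rw [div_le_one (by positivity)]
        exact_mod_cast h5.le
    · exact ⟨le_rfl, zero_le_one⟩
  · intro d hd hbohr
    by_contra hne
    have hd' := abs_le.1 hd
    have hdiff := rep_diff hT0 A' B' C' (fun s hs => (mA s hs).1) (fun s hs => (mB s hs).1)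
      (fun s hs => (mC s hs).1) w hw1 κ κ hκp hκp.le n₀ d (by omega) (by omega) (by omega)
      (by omega) (by
        intro ξ hξ hξ2
        have hξS : ξ ∈ S := by rw [hS, mem_filter]; exact ⟨hξ, hξ2⟩
        obtain ⟨j, hj⟩ : ∃ j, j = S.equivFin ⟨ξ, hξS⟩ := ⟨_, rfl⟩
        obtain ⟨m, hm⟩ := hbohr ⟨j, lt_of_lt_of_le j.2 hScard⟩
        beta_reduce at hm
        rw [dif_pos j.2] at hm
        have hj2 : S.equivFin.symm ⟨(j : ℕ), j.2⟩ = ⟨ξ, hξS⟩ := by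
          rw [Fin.eta, hj, Equiv.symm_apply_apply]
        simp only [hj2] at hm
        exact ee_near ξ d κ m hm)
    rw [hrep, hrep] at hdiff
    have h5' : F (n₀ + d) = !(F n₀) := by
      cases h6 : F (n₀ + d) <;> cases h7 : F n₀ <;>
        first | rfl | exact absurd (h6.trans h7.symm) hne
    have h5 : σ (n₀ + d) = -σ n₀ := by
      rw [hσ, hσ, h5']
      cases F n₀ <;> simp
    have h6 : rep A' B' C' (fun _ => 1) n₀ ≤
        |σ (n₀ + d) * rep A' B' C' (fun _ => 1) (n₀ + d) - σ n₀ * rep A' B' C' (fun _ => 1) n₀| := by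
      rw [h5, show -σ n₀ * rep A' B' C' (fun _ => 1) (n₀ + d) - σ n₀ * rep A' B' C' (fun _ => 1) n₀ =
        -(σ n₀ * (rep A' B' C' (fun _ => 1) (n₀ + d) + rep A' B' C' (fun _ => 1) n₀)) by ring,
        abs_neg, abs_mul, hσ1, one_mul, abs_of_nonneg (add_nonneg (hrnn _) (hrnn _))]
      linarith [hrnn (n₀ + d)]
    have h7 := (hlow.trans h6).trans hdiff
    rw [hκ] at h7
    have hTp : (0 : ℝ) < (T : ℝ) ^ 2 := by positivity
    have h8 : (2 * (1 / (12 * (g1 : ℝ) ^ 3)) + 1 / (12 * (g1 : ℝ) ^ 3)) * (T : ℝ) ^ 2 =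
        (T : ℝ) ^ 2 / (4 * (g1 : ℝ) ^ 3) := by
      field_simp
      ring
    rw [h8, div_le_div_iff₀ (by positivity) (by positivity)] at h7
    have h9 : 0 < (T : ℝ) ^ 2 * (g1 : ℝ) ^ 3 := by positivity
    nlinarith

end Pool.Agent.W634.Owings
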