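import Pool.Agent.W634.Owings.Rec

/-!
# Owings' problem, part II: the threefold identity

If `g` has no bad sequence there are `F : ℤ → Bool`, all of whose finite patterns occur in `g`
arbitrarily far, and syndetic sets `A, B, C` such that `F (s + x + x')` depends on `x'` only for
`s ∈ A`, `x ∈ B`, `x' ∈ C`.
-/

set_option autoImplicit false

namespace Pool.Agent.W634.Owings

open Filter

/-- agreement on the window `[-n, n]` -/
def agree (n : ℕ) (h a : ℤ → Bool) : Prop := ∀ j : ℤ, |j| ≤ n → h j = a j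

/-- shift -/
def sh (i : ℤ) (h : ℤ → Bool) : ℤ → Bool := fun j => h (i + j)

/-- limit of functions along an ultrafilter -/
noncomputable def ulf {α : Type*} (U : Ultrafilter α) (f : α → ℤ → Bool) : ℤ → Bool := by
  classical
  exact fun i => decide (∀ᶠ z in U, f z i = true)

lemma ulf_spec {α : Type*} (U : Ultrafilter α) (f : α → ℤ → Bool) (i : ℤ) :
    ∀ᶠ z in U, f z i = ulf U f i := by
  classical
  rcases U.em (fun z => f z i = true) with h | h
  · have : ulf U f i = true := by simp [ulf, h]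
    rw [this]; exact h
  · have h' : ¬ ∀ᶠ z in U, f z i = true := Ultrafilter.eventually_not.1 h
    have : ulf U f i = false := by simp only [ulf, h', decide_false]
    rw [this]
    filter_upwards [h] with z hz
    simpa using hz

lemma ulf_agree {α : Type*} (U : Ultrafilter α) (f : α → ℤ → Bool) (n : ℕ) :
    ∀ᶠ z in U, agree n (f z) (ulf U f) := by
  have : ∀ᶠ z in U, ∀ j ∈ Finset.Icc (-(n : ℤ)) n, f z j = ulf U f j := by
    rw [Filter.eventually_all_finset]
    exact fun j _ => ulf_spec U f j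
  filter_upwards [this] with z hz j hj
  exact hz j (by rw [Finset.mem_Icc]; exact abs_le.1 hj)

/-- limit of shifts -/
noncomputable def ul (U : Ultrafilter ℤ) (h : ℤ → Bool) : ℤ → Bool := ulf U fun z => sh z h

lemma ul_spec (U : Ultrafilter ℤ) (h : ℤ → Bool) (i : ℤ) : ∀ᶠ z in U, h (z + i) = ul U h i :=
  ulf_spec U (fun z => sh z h) i

lemma ul_agree (U : Ultrafilter ℤ) (h : ℤ → Bool) (n : ℕ) :
    ∀ᶠ z in U, agree n (sh z h) (ul U h) := ulf_agree U _ n

lemma agree_symm {n : ℕ} {h a : ℤ → Bool} (H : agree n h a) : agree n a h :=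
  fun j hj => (H j hj).symm

lemma agree_trans {n : ℕ} {h a b : ℤ → Bool} (H : agree n h a) (H' : agree n a b) : agree n h b :=
  fun j hj => (H j hj).trans (H' j hj)

lemma agree_mono {m n : ℕ} (hmn : m ≤ n) {h a : ℤ → Bool} (H : agree n h a) : agree m h a :=
  fun j hj => H j (hj.trans (by exact_mod_cast hmn))

lemma agree_sh {m n : ℕ} {i : ℤ} (hmn : m + |i| ≤ n) {h a : ℤ → Bool} (H : agree n h a) :
    agree m (sh i h) (sh i a) :=
  fun j hj => H (i + j) ((abs_add_le i j).trans (by omega))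

lemma sh_sh (i j : ℤ) (h : ℤ → Bool) : sh i (sh j h) = sh (i + j) h := by
  funext x
  simp only [sh]
  congr 1
  ring

/-- orbit closure -/
def Om (k : ℤ → Bool) : Set (ℤ → Bool) := {h | ∀ n : ℕ, ∃ m : ℤ, agree n h (sh m k)}

lemma Om_sh {k h : ℤ → Bool} (hh : h ∈ Om k) (i : ℤ) : sh i h ∈ Om k := by
  intro n
  obtain ⟨m, hm⟩ := hh (n + i.natAbs)
  refine ⟨i + m, ?_⟩
  rw [← sh_sh]
  exact agree_sh (by rw [Int.abs_eq_natAbs]; push_cast; omega) hm

lemma Om_of_agree {k h : ℤ → Bool} (H : ∀ n : ℕ, ∃ h' ∈ Om k, agree n h h') : h ∈ Om k := by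
  intro n
  obtain ⟨h', h1, h2⟩ := H n
  obtain ⟨m, hm⟩ := h1 n
  exact ⟨m, agree_trans h2 hm⟩

lemma Om_ulf {α : Type*} (U : Ultrafilter α) {k : ℤ → Bool} (f : α → ℤ → Bool)
    (hf : ∀ z, f z ∈ Om k) : ulf U f ∈ Om k := by
  apply Om_of_agree
  intro n
  obtain ⟨z, hz⟩ := (ulf_agree U f n).exists
  exact ⟨f z, hf z, agree_symm hz⟩

lemma Om_self (k : ℤ → Bool) : k ∈ Om k := fun n => ⟨0, fun j _ => by simp [sh]⟩

lemma isOpen_agree (n : ℕ) (a : ℤ → Bool) : IsOpen {h : ℤ → Bool | agree n h a} := by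
  have : {h : ℤ → Bool | agree n h a} =
      Set.pi (Finset.Icc (-(n : ℤ)) n : Set ℤ) (fun j => {a j}) := by
    ext h
    simp only [agree, Set.mem_ofPred_eq, Set.mem_pi, Finset.coe_Icc, Set.mem_Icc,
      Set.mem_singleton_iff, abs_le]
  rw [this]
  exact isOpen_set_pi (Finset.finite_toSet _) fun j _ => isOpen_discrete _

lemma isClosed_Om (k : ℤ → Bool) : IsClosed (Om k) := by
  rw [← isOpen_compl_iff, isOpen_iff_mem_nhds]
  intro h hh
  have h1 : ¬ ∀ n : ℕ, ∃ m : ℤ, agree n h (sh m k) := hh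
  push Not at h1
  obtain ⟨n, hn⟩ := h1
  filter_upwards [(isOpen_agree n h).mem_nhds (show agree n h h from fun _ _ => rfl)] with h' hh'
  intro hcon
  obtain ⟨m, hm⟩ := hcon n
  exact hn m (agree_trans (agree_symm hh') hm)

/-- the basic lemma -/
theorem basic {g : ℤ → Bool} (hg : NB g) (h : ℤ → Bool) (t : ℤ) : ∃ m : ℕ, ∀ y : ℤ, (m : ℤ) ≤ y →
    agree m (sh y g) h → h (y + t) ≠ g (2 * y + t) := by
  by_contra hcon
  push Not at hcon
  choose y hy hag heq using hcon
  let V : Ultrafilter ℕ := hyperfilter ℕ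
  have hV : (V : Filter ℕ) ≤ atTop := Nat.hyperfilter_le_atTop
  have hxt : Tendsto (fun m => 2 * y m + t) V atTop := by
    apply Tendsto.mono_left _ hV
    apply tendsto_atTop_add_const_right
    apply tendsto_atTop_mono (f := fun n : ℕ => (n : ℤ)) _ tendsto_natCast_atTop_atTop
    intro n
    have := hy n
    omega
  obtain ⟨c, hc⟩ := ult_const V (fun m => g (2 * y m + t))
  have hfl := flip_seq hg V _ hxt c hc
  obtain ⟨n, hn1, hn2⟩ := (hfl.and hc).exists
  obtain ⟨m, hm1, hm2⟩ := (hn1.and (hV (eventually_ge_atTop (y n + t).natAbs))).exists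
  have e1 : (2 * y n + t + (2 * y m + t)) / 2 = y m + (y n + t) := by omega
  have e2 := hag m (y n + t) (by rw [abs_le]; omega)
  have e3 := hm1.2
  rw [e1] at e3
  simp only [sh] at e2
  rw [e3, heq n, hn2] at e2
  cases c <;> simp at e2

theorem basic' {g : ℤ → Bool} (hg : NB g) (h : ℤ → Bool) (N : ℕ) : ∃ m : ℕ, ∀ y : ℤ,
    (m : ℤ) ≤ y → agree m (sh y g) h → ∀ t : ℤ, |t| ≤ N → h (y + t) ≠ g (2 * y + t) := by
  choose m hm using fun t : ℤ => basic hg h t
  refine ⟨(Finset.Icc (-(N : ℤ)) N).sup m, fun y hy hag t ht => ?_⟩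
  have h1 : m t ≤ (Finset.Icc (-(N : ℤ)) N).sup m :=
    Finset.le_sup (by rw [Finset.mem_Icc]; exact abs_le.1 ht)
  exact hm t y (le_trans (by exact_mod_cast h1) hy) (agree_mono h1 hag)

/-- good cylinders -/
def Good (g k a : ℤ → Bool) (l N : ℕ) : Prop := ∀ h ∈ Om k, agree l h a → ∀ y : ℤ, (l : ℤ) ≤ y →
  agree l (sh y g) a → ∀ t : ℤ, |t| ≤ N → h (y + t) ≠ g (2 * y + t)

theorem good_dense {g : ℤ → Bool} (hg : NB g) (k : ℤ → Bool) (N : ℕ) (a : ℤ → Bool) (ha : a ∈ Om k)
    (n : ℕ) : ∃ b ∈ Om k, agree n b a ∧ ∃ l, Good g k b l N := by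
  have hcomp : CompactSpace (Om k) := isCompact_iff_compactSpace.1 (isClosed_Om k).isCompact
  let E : ℕ → Set (Om k) := fun m => {h | ∀ y : ℤ, (m : ℤ) ≤ y → agree m (sh y g) h →
    ∀ t : ℤ, |t| ≤ N → (h : ℤ → Bool) (y + t) ≠ g (2 * y + t)}
  have hEc : ∀ m, IsClosed (E m) := by
    intro m
    have : E m = ⋂ (y : ℤ) (_ : (m : ℤ) ≤ y), ({h : Om k | agree m (h : ℤ → Bool) (sh y g)}ᶜ ∪
        ⋂ (t : ℤ) (_ : |t| ≤ N), {h : Om k | (h : ℤ → Bool) (y + t) ≠ g (2 * y + t)}) := by
      ext h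
      simp only [E, Set.mem_ofPred_eq, Set.mem_iInter, Set.mem_union, Set.mem_compl_iff]
      constructor
      · intro H y hy
        by_cases h1 : agree m (h : ℤ → Bool) (sh y g)
        · exact Or.inr (H y hy (agree_symm h1))
        · exact Or.inl h1
      · intro H y hy h1
        rcases H y hy with h2 | h2
        · exact absurd (agree_symm h1) h2
        · exact h2
    rw [this]
    refine isClosed_iInter fun y => isClosed_iInter fun _ => IsClosed.union ?_ ?_
    · rw [isClosed_compl_iff]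
      exact (isOpen_agree m (sh y g)).preimage continuous_subtype_val
    · refine isClosed_iInter fun t => isClosed_iInter fun _ => ?_
      have hcont : Continuous fun h : Om k => (h : ℤ → Bool) (y + t) :=
        (continuous_apply (y + t)).comp continuous_subtype_val
      exact (isClosed_discrete {b : Bool | b ≠ g (2 * y + t)}).preimage hcont
  have hEu : (⋃ m, E m) = Set.univ := by
    rw [Set.eq_univ_iff_forall]
    intro h
    obtain ⟨m, hm⟩ := basic' hg (h : ℤ → Bool) N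
    exact Set.mem_iUnion.2 ⟨m, hm⟩
  have hdense := dense_iUnion_interior_of_closed hEc hEu
  have hopen : IsOpen {h : Om k | agree n (h : ℤ → Bool) a} :=
    (isOpen_agree n a).preimage continuous_subtype_val
  obtain ⟨b, hb1, hb2⟩ := hdense.inter_open_nonempty _ hopen ⟨⟨a, ha⟩, fun _ _ => rfl⟩
  obtain ⟨m, hm⟩ := Set.mem_iUnion.1 hb2
  refine ⟨b, b.2, hb1, ?_⟩
  obtain ⟨W, hW, hWE⟩ := isOpen_induced_iff.1 (isOpen_interior (s := E m))
  have hbW : (b : ℤ → Bool) ∈ W := by
    have : b ∈ Subtype.val ⁻¹' W := by rw [hWE]; exact hm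
    exact this
  obtain ⟨I, u, hu, hIW⟩ := isOpen_pi_iff.1 hW b hbW
  refine ⟨max m (I.sup Int.natAbs), fun h hh hag y hy hgy => ?_⟩
  have h1 : (⟨h, hh⟩ : Om k) ∈ E m := by
    apply interior_subset
    rw [← hWE]
    show h ∈ W
    apply hIW
    intro i hi
    have h2 : i.natAbs ≤ I.sup Int.natAbs := Finset.le_sup (f := Int.natAbs) hi
    rw [hag i (by rw [Int.abs_eq_natAbs]; exact_mod_cast h2.trans (le_max_right _ _))]
    exact (hu i hi).2
  refine h1 y (le_trans (by push_cast; exact le_max_left _ _) hy) ?_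
  exact agree_mono (le_max_left _ _) (agree_trans hgy (agree_symm hag))

end Pool.Agent.W634.Owings
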