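import Pool.Agent.W634.Owings.Bohr

/-!
# Owings' problem: Fourier analysis

A two-valued function with the threefold identity is constant on long pieces of Bohr sets.
-/

set_option autoImplicit false

namespace Pool.Agent.W634.Owings

open Finset

/-- additive character `e(a/Q)` -/
noncomputable def ee (Q : ℕ) (a : ℤ) : ℂ :=
  Complex.exp (Complex.I * ((2 * Real.pi * ((a : ℝ) / Q) : ℝ) : ℂ))

lemma ee_add (Q : ℕ) (a b : ℤ) : ee Q (a + b) = ee Q a * ee Q b := by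
  unfold ee
  rw [← Complex.exp_add]
  congr 1
  push_cast
  ring

lemma ee_zero (Q : ℕ) : ee Q 0 = 1 := by simp [ee]

lemma norm_ee (Q : ℕ) (a : ℤ) : ‖ee Q a‖ = 1 := by
  rw [ee, mul_comm, Complex.norm_exp_ofReal_mul_I]

lemma conj_ee (Q : ℕ) (a : ℤ) : (starRingEnd ℂ) (ee Q a) = ee Q (-a) := by
  unfold ee
  rw [← Complex.exp_conj]
  congr 1
  rw [map_mul, Complex.conj_I, Complex.conj_ofReal]
  push_cast
  ring

lemma ee_natMul (Q : ℕ) (ξ : ℕ) (n : ℤ) : ee Q ((ξ : ℤ) * n) = ee Q n ^ ξ := by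
  induction ξ with
  | zero => simp [ee_zero]
  | succ k ih => rw [pow_succ, ← ih, ← ee_add]; congr 1; push_cast; ring

lemma orth {Q : ℕ} (hQ : 0 < Q) (n : ℤ) :
    ∑ ξ ∈ range Q, ee Q ((ξ : ℤ) * n) = if (Q : ℤ) ∣ n then (Q : ℂ) else 0 := by
  have hQ' : (Q : ℂ) ≠ 0 := by exact_mod_cast hQ.ne'
  simp only [ee_natMul]
  split_ifs with h
  · obtain ⟨m, rfl⟩ := h
    have : ee Q ((Q : ℤ) * m) = 1 := by
      unfold ee
      rw [Complex.exp_eq_one_iff]
      refine ⟨m, ?_⟩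
      push_cast
      field_simp
    rw [this]
    simp
  · have h1 : ee Q n ≠ 1 := by
      intro h1
      apply h
      unfold ee at h1
      rw [Complex.exp_eq_one_iff] at h1
      obtain ⟨m, hm⟩ := h1
      refine ⟨m, ?_⟩
      have h2 : ((n : ℂ) / Q) = m := by
        have h3 : (Complex.I * (2 * Real.pi)) * ((n : ℂ) / Q) = (Complex.I * (2 * Real.pi)) * m := by
          push_cast at hm
          linear_combination hm
        have h4 : (Complex.I * (2 * (Real.pi : ℂ))) ≠ 0 := by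
          simp [Real.pi_ne_zero]
        exact mul_left_cancel₀ h4 h3
      have h3 : (n : ℂ) = Q * m := by
        rw [div_eq_iff hQ'] at h2
        rw [h2]; ring
      exact_mod_cast h3
    rw [geom_sum_eq h1]
    have h2 : ee Q n ^ Q = 1 := by
      rw [← ee_natMul]
      unfold ee
      rw [Complex.exp_eq_one_iff]
      refine ⟨n, ?_⟩
      push_cast
      field_simp
    rw [h2]
    simp

/-- the transform of a weighted finite set -/
noncomputable def tr (Q : ℕ) (A : Finset ℤ) (w : ℤ → ℝ) (ξ : ℕ) : ℂ :=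
  ∑ s ∈ A, (w s : ℂ) * ee Q (-((ξ : ℤ) * s))

lemma pars {Q : ℕ} (hQ : 0 < Q) (A : Finset ℤ) (hA : ∀ s ∈ A, 0 ≤ s ∧ s < Q) (w : ℤ → ℝ) :
    ∑ ξ ∈ range Q, ‖tr Q A w ξ‖ ^ 2 = Q * ∑ s ∈ A, w s ^ 2 := by
  have h1 : ((∑ ξ ∈ range Q, ‖tr Q A w ξ‖ ^ 2 : ℝ) : ℂ) = ((Q * ∑ s ∈ A, w s ^ 2 : ℝ) : ℂ) := by
    have e1 : ∀ ξ : ℕ, ((‖tr Q A w ξ‖ ^ 2 : ℝ) : ℂ) =
        ∑ s ∈ A, ∑ t ∈ A, ((w s * w t : ℝ) : ℂ) * ee Q ((ξ : ℤ) * (t - s)) := by
      intro ξ
      rw [← Complex.normSq_eq_norm_sq, ← Complex.mul_conj]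
      unfold tr
      rw [map_sum, Finset.sum_mul_sum]
      refine sum_congr rfl fun s _ => sum_congr rfl fun t _ => ?_
      rw [map_mul, Complex.conj_ofReal, conj_ee, mul_sub, sub_eq_add_neg, ee_add, neg_neg]
      push_cast
      ring
    rw [Complex.ofReal_sum]
    simp only [e1]
    rw [sum_comm]
    have e2 : ∀ s ∈ A, ∑ ξ ∈ range Q, ∑ t ∈ A, ((w s * w t : ℝ) : ℂ) * ee Q ((ξ : ℤ) * (t - s)) =
        Q * (w s : ℂ) ^ 2 := by
      intro s hs
      rw [sum_comm]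
      have e3 : ∀ t ∈ A, ∑ ξ ∈ range Q, ((w s * w t : ℝ) : ℂ) * ee Q ((ξ : ℤ) * (t - s)) =
          if t = s then Q * (w s : ℂ) ^ 2 else 0 := by
        intro t ht
        rw [← mul_sum, orth hQ]
        have h4 : (Q : ℤ) ∣ t - s ↔ t = s := by
          constructor
          · intro h
            have := hA s hs
            have := hA t ht
            have h5 : t - s = 0 := Int.eq_zero_of_abs_lt_dvd h (by rw [abs_lt]; omega)
            omega
          · rintro rfl; simp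
        simp only [h4]
        split_ifs with h
        · subst h; push_cast; ring
        · simp
      rw [sum_congr rfl e3, sum_ite_eq' A s, if_pos hs]
    rw [sum_congr rfl e2, ← mul_sum]
    push_cast
    rfl
  exact_mod_cast h1

/-- the weighted number of representations -/
noncomputable def rep (A B C : Finset ℤ) (w : ℤ → ℝ) (n : ℤ) : ℝ :=
  ∑ s ∈ A, ∑ x ∈ B, ∑ y ∈ C, if s + x + y = n then w y else 0

lemma rep_fourier {T : ℕ} (hT : 0 < T) (A B C : Finset ℤ) (hA : ∀ s ∈ A, 0 ≤ s ∧ s < T)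
    (hB : ∀ s ∈ B, 0 ≤ s ∧ s < T) (hC : ∀ s ∈ C, 0 ≤ s ∧ s < T) (w : ℤ → ℝ) (n : ℤ)
    (hn1 : -T ≤ 2 * n) (hn2 : 2 * n ≤ 7 * T) :
    (((4 * T : ℕ) : ℝ) : ℂ) * (rep A B C w n : ℂ) = ∑ ξ ∈ range (4 * T),
      tr (4 * T) A (fun _ => 1) ξ * tr (4 * T) B (fun _ => 1) ξ * tr (4 * T) C w ξ *
        ee (4 * T) ((ξ : ℤ) * n) := by
  have hQ : 0 < 4 * T := by omega
  have e1 : ∀ ξ ∈ range (4 * T), tr (4 * T) A (fun _ => 1) ξ * tr (4 * T) B (fun _ => 1) ξ *
      tr (4 * T) C w ξ * ee (4 * T) ((ξ : ℤ) * n) =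
      ∑ s ∈ A, ∑ x ∈ B, ∑ y ∈ C, (w y : ℂ) * ee (4 * T) ((ξ : ℤ) * (n - (s + x + y))) := by
    intro ξ _
    unfold tr
    rw [Finset.sum_mul_sum]
    rw [Finset.sum_mul, Finset.sum_mul]
    refine sum_congr rfl fun s _ => ?_
    rw [Finset.sum_mul, Finset.sum_mul]
    refine sum_congr rfl fun x _ => ?_
    rw [Finset.mul_sum, Finset.sum_mul]
    refine sum_congr rfl fun y _ => ?_
    have : (ξ : ℤ) * (n - (s + x + y)) = -((ξ : ℤ) * s) + -((ξ : ℤ) * x) + -((ξ : ℤ) * y) +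
      (ξ : ℤ) * n := by ring
    rw [this, ee_add, ee_add, ee_add]
    push_cast
    ring
  have e2 : ∑ ξ ∈ range (4 * T), ∑ s ∈ A, ∑ x ∈ B, ∑ y ∈ C,
      (w y : ℂ) * ee (4 * T) ((ξ : ℤ) * (n - (s + x + y))) =
      ∑ s ∈ A, ∑ x ∈ B, ∑ y ∈ C, ∑ ξ ∈ range (4 * T),
        (w y : ℂ) * ee (4 * T) ((ξ : ℤ) * (n - (s + x + y))) :=
    Finset.sum_comm.trans (sum_congr rfl fun s _ =>
      Finset.sum_comm.trans (sum_congr rfl fun x _ => Finset.sum_comm))
  rw [sum_congr rfl e1, e2]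
  unfold rep
  rw [Complex.ofReal_sum, mul_sum]
  refine sum_congr rfl fun s hs => ?_
  rw [Complex.ofReal_sum, mul_sum]
  refine sum_congr rfl fun x hx => ?_
  rw [Complex.ofReal_sum, mul_sum]
  refine sum_congr rfl fun y hy => ?_
  rw [← mul_sum, orth hQ]
  have h4 : ((4 * T : ℕ) : ℤ) ∣ n - (s + x + y) ↔ s + x + y = n := by
    constructor
    · intro h
      have := hA s hs
      have := hB x hx
      have := hC y hy
      have h5 : n - (s + x + y) = 0 := Int.eq_zero_of_abs_lt_dvd h (by rw [abs_lt]; omega)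
      omega
    · intro h; rw [← h]; simp
  simp only [h4]
  split_ifs with h
  · push_cast; ring
  · simp

lemma ee_near {Q : ℕ} (ξ : ℕ) (d : ℤ) (κ : ℝ) (m : ℤ)
    (h : |((ξ : ℝ) / Q) * d - m| < κ / (2 * Real.pi)) : ‖ee Q ((ξ : ℤ) * d) - 1‖ ≤ κ := by
  have h1 : ee Q ((ξ : ℤ) * d) = Complex.exp (Complex.I *
      ((2 * Real.pi * (((ξ : ℝ) / Q) * d - m) : ℝ) : ℂ)) := by
    unfold ee
    rw [show (Complex.I * ((2 * Real.pi * ((((ξ : ℤ) * d : ℤ) : ℝ) / Q) : ℝ) : ℂ)) =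
      Complex.I * ((2 * Real.pi * (((ξ : ℝ) / Q) * d - m) : ℝ) : ℂ) +
        m * (2 * Real.pi * Complex.I) by push_cast; ring]
    rw [Complex.exp_add, Complex.exp_int_mul_two_pi_mul_I, mul_one]
  rw [h1]
  refine Real.norm_exp_I_mul_ofReal_sub_one_le.trans ?_
  rw [Real.norm_eq_abs, abs_mul, abs_of_pos (by positivity)]
  rw [lt_div_iff₀ (by positivity)] at h
  linarith

end Pool.Agent.W634.Owings
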