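import Pool.Agent.W634.Owings.Fourier

set_option autoImplicit false

namespace Pool.Agent.W634.Owings

open Finset

lemma card_le_of_range {T : ℕ} (A : Finset ℤ) (hA : ∀ s ∈ A, 0 ≤ s ∧ s < T) : A.card ≤ T := by
  have : A ⊆ Finset.Ico (0 : ℤ) T := fun s hs => Finset.mem_Ico.2 (hA s hs)
  have h := Finset.card_le_card this
  simpa using h

lemma rep_diff {T : ℕ} (hT : 0 < T) (A B C : Finset ℤ) (hA : ∀ s ∈ A, 0 ≤ s ∧ s < T)
    (hB : ∀ s ∈ B, 0 ≤ s ∧ s < T) (hC : ∀ s ∈ C, 0 ≤ s ∧ s < T) (w : ℤ → ℝ)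
    (hw : ∀ y, |w y| ≤ 1) (γ κ : ℝ) (hγ : 0 < γ) (hκ : 0 ≤ κ) (n d : ℤ)
    (hn1 : -T ≤ 2 * n) (hn2 : 2 * n ≤ 7 * T) (hm1 : -T ≤ 2 * (n + d)) (hm2 : 2 * (n + d) ≤ 7 * T)
    (hd : ∀ ξ ∈ range (4 * T), γ * T ≤ ‖tr (4 * T) C w ξ‖ → ‖ee (4 * T) ((ξ : ℤ) * d) - 1‖ ≤ κ) :
    |rep A B C w (n + d) - rep A B C w n| ≤ (2 * γ + κ) * (T : ℝ) ^ 2 := by
  have hT' : (0 : ℝ) < T := by exact_mod_cast hT
  have h1 := rep_fourier hT A B C hA hB hC w n hn1 hn2
  have h2 := rep_fourier hT A B C hA hB hC w (n + d) hm1 hm2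
  have h3 : (((4 * T : ℕ) : ℝ) : ℂ) * ((rep A B C w (n + d) - rep A B C w n : ℝ) : ℂ) =
      ∑ ξ ∈ range (4 * T),
      tr (4 * T) A (fun _ => 1) ξ * tr (4 * T) B (fun _ => 1) ξ * (tr (4 * T) C w ξ *
        ee (4 * T) ((ξ : ℤ) * n) * (ee (4 * T) ((ξ : ℤ) * d) - 1)) := by
    rw [Complex.ofReal_sub, mul_sub, h1, h2, ← sum_sub_distrib]
    refine sum_congr rfl fun ξ _ => ?_
    rw [mul_add, ee_add]
    ring
  have h4 := congrArg norm h3
  rw [norm_mul, Complex.norm_real, Complex.norm_real, Real.norm_eq_abs, Real.norm_eq_abs,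
    abs_of_nonneg (by positivity : (0 : ℝ) ≤ ((4 * T : ℕ) : ℝ))] at h4
  have hterm : ∀ ξ ∈ range (4 * T), ‖tr (4 * T) A (fun _ => 1) ξ * tr (4 * T) B (fun _ => 1) ξ *
      (tr (4 * T) C w ξ * ee (4 * T) ((ξ : ℤ) * n) * (ee (4 * T) ((ξ : ℤ) * d) - 1))‖ ≤
      (2 * γ + κ) * T * ((‖tr (4 * T) A (fun _ => 1) ξ‖ ^ 2 +
        ‖tr (4 * T) B (fun _ => 1) ξ‖ ^ 2) / 2) := by
    intro ξ hξ
    rw [norm_mul, norm_mul, norm_mul, norm_mul, norm_ee, mul_one]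
    have a1 : ‖tr (4 * T) C w ξ‖ * ‖ee (4 * T) ((ξ : ℤ) * d) - 1‖ ≤ (2 * γ + κ) * T := by
      have a2 : ‖ee (4 * T) ((ξ : ℤ) * d) - 1‖ ≤ 2 := by
        refine (norm_sub_le _ _).trans ?_
        rw [norm_ee]
        norm_num
      have a3 : ‖tr (4 * T) C w ξ‖ ≤ T := by
        unfold tr
        refine (norm_sum_le _ _).trans ?_
        calc ∑ s ∈ C, ‖(w s : ℂ) * ee (4 * T) (-((ξ : ℤ) * s))‖ ≤ ∑ s ∈ C, (1 : ℝ) := by
              refine sum_le_sum fun s _ => ?_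
              rw [norm_mul, norm_ee, mul_one, Complex.norm_real]
              exact hw s
          _ = C.card := by simp
          _ ≤ T := by exact_mod_cast card_le_of_range C hC
      rcases le_or_gt (γ * T) ‖tr (4 * T) C w ξ‖ with h | h
      · have a4 := hd ξ hξ h
        calc ‖tr (4 * T) C w ξ‖ * ‖ee (4 * T) ((ξ : ℤ) * d) - 1‖ ≤ T * κ :=
              mul_le_mul a3 a4 (norm_nonneg _) hT'.le
          _ ≤ (2 * γ + κ) * T := by nlinarith
      · calc ‖tr (4 * T) C w ξ‖ * ‖ee (4 * T) ((ξ : ℤ) * d) - 1‖ ≤ (γ * T) * 2 :=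
              mul_le_mul h.le a2 (norm_nonneg _) (by positivity)
          _ ≤ (2 * γ + κ) * T := by nlinarith
    have a5 : ‖tr (4 * T) A (fun _ => 1) ξ‖ * ‖tr (4 * T) B (fun _ => 1) ξ‖ ≤
        (‖tr (4 * T) A (fun _ => 1) ξ‖ ^ 2 + ‖tr (4 * T) B (fun _ => 1) ξ‖ ^ 2) / 2 := by
      nlinarith [sq_nonneg (‖tr (4 * T) A (fun _ => 1) ξ‖ - ‖tr (4 * T) B (fun _ => 1) ξ‖)]
    rw [mul_comm ((2 * γ + κ) * T)]
    exact mul_le_mul a5 a1 (by positivity) (by positivity)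
  have h5 : ((4 * T : ℕ) : ℝ) * |rep A B C w (n + d) - rep A B C w n| ≤
      (2 * γ + κ) * T * ((((4 * T : ℕ) : ℝ) * A.card + ((4 * T : ℕ) : ℝ) * B.card) / 2) := by
    rw [h4]
    refine (norm_sum_le _ _).trans ((sum_le_sum hterm).trans ?_)
    rw [← mul_sum, ← sum_div, sum_add_distrib]
    rw [pars (by omega) A (fun s hs => by have := hA s hs; push_cast; omega),
      pars (by omega) B (fun s hs => by have := hB s hs; push_cast; omega)]
    simp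
  have hAc : (A.card : ℝ) ≤ T := by exact_mod_cast card_le_of_range A hA
  have hBc : (B.card : ℝ) ≤ T := by exact_mod_cast card_le_of_range B hB
  push_cast at h5
  have h6 : (4 * (T : ℝ)) * |rep A B C w (n + d) - rep A B C w n| ≤
      (4 * (T : ℝ)) * ((2 * γ + κ) * (T : ℝ) ^ 2) := by
    refine h5.trans ?_
    have h7 : (4 * (T : ℝ) * A.card + 4 * T * B.card) / 2 ≤ 4 * T * T := by nlinarith
    calc (2 * γ + κ) * T * ((4 * (T : ℝ) * A.card + 4 * T * B.card) / 2) ≤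
        (2 * γ + κ) * T * (4 * T * T) := mul_le_mul_of_nonneg_left h7 (by positivity)
      _ = _ := by ring
  exact le_of_mul_le_mul_left h6 (by positivity)

lemma spec_card {T : ℕ} (hT : 0 < T) (C : Finset ℤ) (hC : ∀ s ∈ C, 0 ≤ s ∧ s < T) (w : ℤ → ℝ)
    (hw : ∀ y, |w y| ≤ 1) (γ : ℝ) (hγ : 0 < γ) :
    (((range (4 * T)).filter fun ξ => γ * T ≤ ‖tr (4 * T) C w ξ‖).card : ℝ) * γ ^ 2 ≤ 4 := by
  have hT' : (0 : ℝ) < T := by exact_mod_cast hT
  have h1 := pars (Q := 4 * T) (by omega) C (fun s hs => by have := hC s hs; push_cast; omega) w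
  have h2 : ∑ ξ ∈ (range (4 * T)).filter (fun ξ => γ * T ≤ ‖tr (4 * T) C w ξ‖), (γ * T) ^ 2 ≤
      ∑ ξ ∈ range (4 * T), ‖tr (4 * T) C w ξ‖ ^ 2 := by
    refine (sum_le_sum fun ξ hξ => ?_).trans
      (sum_le_sum_of_subset_of_nonneg (filter_subset _ _) fun ξ _ _ => by positivity)
    rw [mem_filter] at hξ
    exact pow_le_pow_left₀ (by positivity) hξ.2 2
  rw [sum_const, nsmul_eq_mul, h1] at h2
  have h3 : ∑ s ∈ C, w s ^ 2 ≤ T := by
    calc ∑ s ∈ C, w s ^ 2 ≤ ∑ s ∈ C, (1 : ℝ) := by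
          refine sum_le_sum fun s _ => ?_
          rw [← sq_abs]
          exact pow_le_one₀ (abs_nonneg _) (hw s)
      _ = C.card := by simp
      _ ≤ T := by exact_mod_cast card_le_of_range C hC
  have h4 : (((range (4 * T)).filter fun ξ => γ * T ≤ ‖tr (4 * T) C w ξ‖).card : ℝ) *
      γ ^ 2 * (T : ℝ) ^ 2 ≤ 4 * (T : ℝ) ^ 2 := by
    push_cast at h2
    nlinarith
  exact le_of_mul_le_mul_right h4 (by positivity)

lemma card_ge {G : ℤ} (hG : 0 ≤ G) (A : ℤ → Prop) [DecidablePred A]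
    (hA : ∀ a : ℤ, ∃ x, a ≤ x ∧ x ≤ a + G ∧ A x) (T₁ : ℕ) :
    T₁ ≤ ((Finset.Ico (0 : ℤ) (((G.toNat + 1) * T₁ : ℕ) : ℤ)).filter A).card := by
  choose f hf1 hf2 hf3 using fun i : ℕ => hA (((G.toNat + 1 : ℕ) : ℤ) * i)
  have h := Finset.card_le_card_of_injOn (s := range T₁)
    (t := (Finset.Ico (0 : ℤ) (((G.toNat + 1) * T₁ : ℕ) : ℤ)).filter A) f (by
      intro i hi
      simp only [coe_range, Set.mem_Iio] at hi
      have h1 := hf1 i
      have h2 := hf2 i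
      simp only [coe_filter, Set.mem_ofPred_eq, Finset.mem_Ico]
      refine ⟨⟨le_trans (by positivity) h1, ?_⟩, hf3 i⟩
      have h3 : (i : ℤ) + 1 ≤ T₁ := by exact_mod_cast hi
      have h4 : ((G.toNat + 1 : ℕ) : ℤ) = G + 1 := by push_cast; omega
      push_cast at h4 ⊢
      push_cast at h2
      nlinarith) (by
      intro i _ j _ hij
      have h1 := hf1 i
      have h2 := hf2 i
      have h3 := hf1 j
      have h4 := hf2 j
      rw [hij] at h1 h2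
      have h5 : ((G.toNat + 1 : ℕ) : ℤ) = G + 1 := by push_cast; omega
      rw [h5] at h1 h2 h3 h4
      by_contra hne
      rcases lt_or_gt_of_ne hne with h | h
      · have : (i : ℤ) + 1 ≤ j := by exact_mod_cast h
        nlinarith
      · have : (j : ℤ) + 1 ≤ i := by exact_mod_cast h
        nlinarith)
  simpa using h

end Pool.Agent.W634.Owings
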