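import Pool.Agent.W634.Owings.Runs

/-!
# Owings' problem: a minimal ultrafilter

There is an ultrafilter `q` at `+∞` such that all its return sets are syndetic.
-/

set_option autoImplicit false

namespace Pool.Agent.W634.Owings

open Filter

theorem exists_minimal : ∃ F : Filter ℤ, F.NeBot ∧ F ≤ atTop ∧
    (∀ i : ℤ, Tendsto (fun z => z + i) F F) ∧
    ∀ F' : Filter ℤ, F'.NeBot → F' ≤ F → (∀ i : ℤ, Tendsto (fun z => z + i) F' F') → F ≤ F' := by
  let S : Set (Filter ℤ)ᵒᵈ := {F | (OrderDual.ofDual F).NeBot ∧ OrderDual.ofDual F ≤ atTop ∧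
    ∀ i : ℤ, Tendsto (fun z => z + i) (OrderDual.ofDual F) (OrderDual.ofDual F)}
  have h0 : OrderDual.toDual (atTop : Filter ℤ) ∈ S :=
    ⟨inferInstanceAs (NeBot (atTop : Filter ℤ)), le_rfl,
      fun i => tendsto_atTop_add_const_right _ i tendsto_id⟩
  obtain ⟨M, -, hM⟩ := zorn_le_nonempty₀ S (by
    intro c hc hchain y hy
    refine ⟨OrderDual.toDual (sInf (OrderDual.toDual ⁻¹' c)), ⟨?_, ?_, ?_⟩, ?_⟩
    · apply sInf_neBot_of_directed' (s := OrderDual.toDual ⁻¹' c) ⟨OrderDual.ofDual y, hy⟩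
      · intro a ha b hb
        rcases eq_or_ne a b with rfl | hab
        · exact ⟨a, ha, le_rfl, le_rfl⟩
        · rcases hchain ha hb hab with h | h
          · exact ⟨b, hb, h, le_rfl⟩
          · exact ⟨a, ha, le_rfl, h⟩
      · intro hbot
        exact (hc hbot).1.ne rfl
    · exact (sInf_le (show OrderDual.ofDual y ∈ OrderDual.toDual ⁻¹' c from hy)).trans (hc hy).2.1
    · intro i
      show Tendsto _ (sInf (OrderDual.toDual ⁻¹' c)) (sInf (OrderDual.toDual ⁻¹' c))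
      unfold Tendsto
      refine le_sInf fun b hb => ?_
      exact ((hc hb).2.2 i).mono_left (sInf_le hb)
    · intro z hz
      exact sInf_le (show OrderDual.ofDual z ∈ OrderDual.toDual ⁻¹' c from hz)) _ h0
  refine ⟨OrderDual.ofDual M, hM.1.1, hM.1.2.1, hM.1.2.2, fun F' h1 h2 h3 => ?_⟩
  exact hM.2 (y := OrderDual.toDual F') ⟨h1, h2.trans hM.1.2.1, h3⟩ h2

/-- return sets of the ultrafilter -/
theorem exists_rec : ∃ q : Ultrafilter ℤ, (q : Filter ℤ) ≤ atTop ∧
    ∀ D : ℤ → Prop, (∃ x₀ : ℤ, ∀ᶠ z in q, D (z + x₀)) → Synd fun x => ∀ᶠ z in q, D (z + x) := by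
  obtain ⟨F, hne, htop, hinv, hmin⟩ := exists_minimal
  refine ⟨Ultrafilter.of F, (Ultrafilter.of_le F).trans htop, ?_⟩
  rintro D ⟨x₀, hx₀⟩
  have claim : ∃ T : Finset ℤ, ∀ᶠ z in F, ∃ i ∈ T, D (z + i) := by
    by_contra hcon'
    have hcon : ∀ T : Finset ℤ, ¬ ∀ᶠ z in F, ∃ i ∈ T, D (z + i) := fun T h => hcon' ⟨T, h⟩
    let A : ℤ → Set ℤ := fun i => {z | ¬ D (z + i)}
    let F' : Filter ℤ := F ⊓ ⨅ i, 𝓟 (A i)
    have hF'ne : F'.NeBot := by
      rw [neBot_iff]
      intro hbot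
      have h1 : (∅ : Set ℤ) ∈ F' := by rw [hbot]; exact mem_bot
      rw [Filter.mem_inf_iff] at h1
      obtain ⟨t₁, ht₁, t₂, ht₂, h12⟩ := h1
      rw [mem_iInf_finite] at ht₂
      obtain ⟨T, hT⟩ := ht₂
      rw [iInf_principal_finset, mem_principal] at hT
      apply hcon T
      filter_upwards [ht₁] with z hz
      by_contra hz2
      push Not at hz2
      have h3 : z ∈ t₂ := hT (by simpa [A] using hz2)
      have : z ∈ (∅ : Set ℤ) := by rw [h12]; exact ⟨hz, h3⟩
      exact this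
    have hF'inv : ∀ i : ℤ, Tendsto (fun z => z + i) F' F' := by
      intro i
      rw [tendsto_inf]
      constructor
      · exact (hinv i).mono_left inf_le_left
      · rw [tendsto_iInf]
        intro j
        rw [tendsto_principal]
        have h1 : A (i + j) ∈ F' := by
          have h2 : F' ≤ 𝓟 (A (i + j)) := inf_le_right.trans (iInf_le _ _)
          exact h2 (mem_principal_self _)
        filter_upwards [h1] with z hz
        simpa [A, add_assoc] using hz
    have h1 := hmin F' hF'ne inf_le_left hF'inv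
    have h2 : A x₀ ∈ F := by
      apply h1
      have h2 : F' ≤ 𝓟 (A x₀) := inf_le_right.trans (iInf_le _ _)
      exact h2 (mem_principal_self _)
    have h3 : ∀ᶠ z in (Ultrafilter.of F : Filter ℤ), ¬ D (z + x₀) := Ultrafilter.of_le F h2
    obtain ⟨z, hz1, hz2⟩ := (hx₀.and h3).exists
    exact hz2 hz1
  obtain ⟨T, hT⟩ := claim
  obtain ⟨R, hR⟩ : ∃ R : ℤ, ∀ i ∈ T, |i| ≤ R := by
    refine ⟨∑ i ∈ T, |i|, fun i hi => ?_⟩
    exact Finset.single_le_sum (f := fun i : ℤ => |i|) (fun _ _ => abs_nonneg _) hi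
  refine ⟨2 * |R|, by positivity, fun a => ?_⟩
  have h1 : ∀ᶠ z in F, ∃ i ∈ T, D (z + (a + |R|) + i) := (hinv (a + |R|)).eventually hT
  have h2 : ∀ᶠ z in (Ultrafilter.of F : Filter ℤ), ∃ i : T, D (z + (a + |R|) + i) := by
    have h3 : ∀ᶠ z in (Ultrafilter.of F : Filter ℤ), ∃ i ∈ T, D (z + (a + |R|) + i) :=
      Ultrafilter.of_le F h1
    filter_upwards [h3] with z hz
    obtain ⟨i, hi, hD⟩ := hz
    exact ⟨⟨i, hi⟩, hD⟩
  obtain ⟨i, hi⟩ := Ultrafilter.eventually_exists_iff.1 h2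
  have h4 := abs_le.1 ((hR i i.2).trans (le_abs_self R))
  refine ⟨a + |R| + i, by omega, by omega, ?_⟩
  filter_upwards [hi] with z hz
  rwa [show z + (a + |R| + i) = z + (a + |R|) + i by ring]

end Pool.Agent.W634.Owings
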