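import Pool.Agent.W634.Owings.Basic

/-!
# Owings' problem, part I: no long runs

If `g` has no bad sequence, `P` has the midpoint property `Mid` and is syndetic, then `g` is not
constant on `P ∩ I` for long intervals `I` far away.
-/

set_option autoImplicit false

namespace Pool.Agent.W634.Owings

open Filter

/-- the midpoint property -/
def Mid (P : ℤ → Prop) : Prop :=
  ∃ (κ : Type) (_ : Finite κ) (τ : ℤ → κ), ∀ x y, τ x = τ y → (2 : ℤ) ∣ x + y →
    (P ((x + y) / 2) ↔ P x)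

/-- syndetic sets of integers -/
def Synd (P : ℤ → Prop) : Prop :=
  ∃ G : ℤ, 0 ≤ G ∧ ∀ a : ℤ, ∃ x, a ≤ x ∧ x ≤ a + G ∧ P x

theorem doubling {g : ℤ → Bool} (hg : NB g) {P : ℤ → Prop} (hP : Mid P) :
    ∃ n : ℤ, 1 ≤ n ∧ ∀ y, n ≤ y → ∀ ε, (∀ x, y - n ≤ x → x ≤ y + n → P x → g x = ε) →
      ∀ x, (x = 2 * y ∨ x = 2 * y + 1) → P x → g x = !ε := by
  obtain ⟨κ, _, τ, hτ⟩ := hP
  by_contra hcon
  push Not at hcon
  have h' : ∀ n : ℕ, ∃ (y : ℤ) (ε : Bool) (x : ℤ), (n : ℤ) + 1 ≤ y ∧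
      (∀ x, y - (n + 1) ≤ x → x ≤ y + (n + 1) → P x → g x = ε) ∧
      (x = 2 * y ∨ x = 2 * y + 1) ∧ P x ∧ g x ≠ !ε := by
    intro n
    obtain ⟨y, hy, ε, h1, x, hx, h2, h3⟩ := hcon ((n : ℤ) + 1) (by omega)
    exact ⟨y, ε, x, hy, h1, hx, h2, h3⟩
  choose y ε x hy hrun hx hPx hgx using h'
  let V : Ultrafilter ℕ := hyperfilter ℕ
  have hV : (V : Filter ℕ) ≤ atTop := Nat.hyperfilter_le_atTop
  obtain ⟨c, hc⟩ := ult_const V (fun n => (ε n, decide (x n = 2 * y n), τ (x n)))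
  have hxt : Tendsto x V atTop := by
    apply Tendsto.mono_left _ hV
    apply tendsto_atTop_mono (f := fun n : ℕ => (n : ℤ)) _ tendsto_natCast_atTop_atTop
    intro n
    have := hy n
    rcases hx n with h | h <;> simp only [h] <;> omega
  have hgc : ∀ᶠ n in V, g (x n) = c.1 := by
    filter_upwards [hc] with n hn
    have h1 : ε n = c.1 := congrArg Prod.fst hn
    have h2 := hgx n
    rw [h1] at h2
    cases h3 : g (x n) <;> cases h4 : c.1 <;> simp_all
  have hflip := flip_seq hg V x hxt c.1 hgc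
  obtain ⟨n, hn1, hn2⟩ := (hflip.and hc).exists
  obtain ⟨m, hm1, hm2, hm3⟩ :=
    (hn1.and (hc.and (hV (eventually_ge_atTop (y n).toNat)))).exists
  have e1 : ε m = c.1 := congrArg Prod.fst hm2
  have e2 : decide (x n = 2 * y n) = decide (x m = 2 * y m) := by
    have h1 := congrArg (fun p : Bool × Bool × κ => p.2.1) hn2
    have h2 := congrArg (fun p : Bool × Bool × κ => p.2.1) hm2
    simp only at h1 h2
    rw [h1, h2]
  have e3 : τ (x m) = τ (x n) := by
    have h1 := congrArg (fun p : Bool × Bool × κ => p.2.2) hn2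
    have h2 := congrArg (fun p : Bool × Bool × κ => p.2.2) hm2
    simp only at h1 h2
    rw [h1, h2]
  have e4 := (hτ (x m) (x n) e3 (by rw [add_comm]; exact hm1.1)).2 (hPx m)
  rw [add_comm] at e4
  have e5 : y m ≤ (x n + x m) / 2 ∧ (x n + x m) / 2 ≤ y m + (m + 1) := by
    have hyn := hy n
    rw [decide_eq_decide] at e2
    have hxn := hx n
    have hxm := hx m
    omega
  have e6 := hrun m _ (by omega) e5.2 e4
  have e7 := hm1.2
  rw [e6, e1] at e7
  cases h : c.1 <;> simp [h] at e7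

theorem no_long_runs {g : ℤ → Bool} (hg : NB g) {P : ℤ → Prop} (hP : Mid P) (hS : Synd P) :
    ∃ L : ℤ, ∀ s t ε, L ≤ s → L ≤ t - s → ¬ ∀ x, s ≤ x → x ≤ t → P x → g x = ε := by
  obtain ⟨n, hn1, hdbl⟩ := doubling hg hP
  obtain ⟨κ, _, τ', hτ'⟩ := hP
  obtain ⟨G, hG0, hG⟩ := hS
  by_contra hcon
  push Not at hcon
  obtain ⟨N₀, hN₀⟩ : ∃ N₀ : ℤ, N₀ = 4 * n + G := ⟨_, rfl⟩
  obtain ⟨s, t, ε, hs, hst, hrun⟩ := hcon (10 * (N₀ + n))
  obtain ⟨sm, hsm⟩ : ∃ sm : ℕ → ℤ, ∀ m, sm m = 2 ^ m * (s + 2 * n) - 2 * n := ⟨_, fun _ => rfl⟩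
  obtain ⟨tm, htm⟩ : ∃ tm : ℕ → ℤ, ∀ m, tm m = 2 ^ m * (t - 2 * n) + 2 * n := ⟨_, fun _ => rfl⟩
  obtain ⟨col, hcol0, hcol⟩ : ∃ col : ℕ → Bool, col 0 = ε ∧ ∀ m, col (m + 1) = !(col m) :=
    ⟨fun m => Nat.rec ε (fun _ c => !c) m, rfl, fun _ => rfl⟩
  have hsm1 : ∀ m, sm (m + 1) = 2 * sm m + 2 * n := by intro m; rw [hsm, hsm, pow_succ]; ring
  have htm1 : ∀ m, tm (m + 1) = 2 * tm m - 2 * n := by intro m; rw [htm, htm, pow_succ]; ring
  have hsm0 : sm 0 = s := by rw [hsm]; ring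
  have htm0 : tm 0 = t := by rw [htm]; ring
  have hsge : ∀ m, s ≤ sm m := by
    intro m
    induction m with
    | zero => rw [hsm0]
    | succ m ih => rw [hsm1]; omega
  have hlen : ∀ m : ℕ, 10 * (N₀ + n) + m ≤ tm m - sm m := by
    intro m
    induction m with
    | zero => rw [hsm0, htm0]; simpa using hst
    | succ m ih => rw [hsm1, htm1]; push_cast; omega
  have hR : ∀ m, ∀ x, sm m ≤ x → x ≤ tm m → P x → g x = col m := by
    intro m
    induction m with
    | zero => rw [hsm0, htm0, hcol0]; exact hrun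
    | succ m ih =>
      intro x h1 h2 hx
      rw [hsm1] at h1
      rw [htm1] at h2
      rw [hcol]
      have := hsge m
      refine hdbl (x / 2) (by omega) (col m) (fun x' h3 h4 => ih x' (by omega) (by omega)) x
        (by omega) hx
  obtain ⟨T, hT⟩ : ∃ T : ℕ → ℤ → Prop, ∀ m τ, T m τ ↔ N₀ + 2 * n ≤ τ ∧ τ ≤ tm m ∧
      ∀ x, τ - N₀ ≤ x → x ≤ τ → P x → g x = !(col m) := ⟨_, fun _ _ => Iff.rfl⟩
  have hTne : ∀ m, T (m + 1) (tm m) := by
    intro m
    rw [hT]
    have h1 := hlen m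
    have h2 := hsge m
    refine ⟨by omega, by rw [htm1]; omega, fun x h3 h4 hx => ?_⟩
    rw [hcol, Bool.not_not]
    exact hR m x (by omega) h4 hx
  have hTub : ∀ m z, T m z → z < sm m + G := by
    intro m z hz
    rw [hT] at hz
    by_contra hlt
    obtain ⟨x, hx1, hx2, hx3⟩ := hG (z - G)
    have h1 := hR m x (by omega) (by omega) hx3
    have h2 := hz.2.2 x (by omega) (by omega) hx3
    rw [h1] at h2
    cases h : col m <;> simp [h] at h2
  have hmax : ∀ m, ∃ τ, T (m + 1) τ ∧ ∀ z, T (m + 1) z → z ≤ τ := by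
    intro m
    exact Int.exists_greatest_of_bdd ⟨sm (m + 1) + G, fun z hz => (hTub _ z hz).le⟩
      ⟨_, hTne m⟩
  choose τ hτT hτmax using hmax
  have ha : ∀ m, tm m ≤ τ m := fun m => hτmax m _ (hTne m)
  have hc : ∀ m, 2 * τ m - 2 * n ≤ τ (m + 1) := by
    intro m
    apply hτmax
    have h1 := (hT _ _).1 (hτT m)
    have h2 := hTub _ _ (hτT m)
    have h3 := hlen (m + 1 + 1)
    have h4 := hsm1 (m + 1)
    have h5 := hsge (m + 1)
    have h6 := ha m
    have h7 := hlen m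
    have h8 := hsge m
    rw [hT]
    refine ⟨by omega, by push_cast at h3; omega, fun x hx1 hx2 hx => ?_⟩
    rw [hcol (m + 1)]
    refine hdbl (x / 2) (by omega) _ (fun x' h3 h4 => h1.2.2 x' (by omega) (by omega)) x
        (by omega) hx
  have hlow : ∀ m : ℕ, (m : ℤ) ≤ τ m := by
    intro m
    have h6 := ha m
    have h7 := hlen m
    have h8 := hsge m
    omega
  let V : Ultrafilter ℕ := hyperfilter ℕ
  have hV : (V : Filter ℕ) ≤ atTop := Nat.hyperfilter_le_atTop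
  obtain ⟨c, hcc⟩ := ult_const V (fun m => col (m + 1))
  have hkey : ∀ e : ℕ, (e : ℤ) ≤ N₀ → ∀ᶠ i in V, ∀ᶠ j in V, (2 : ℤ) ∣ τ i + τ j ∧
      (P ((τ i + τ j) / 2 - e) → g ((τ i + τ j) / 2 - e) = c) := by
    intro e he
    obtain ⟨d, hd⟩ := ult_const V (fun m => (g (τ m - e), τ' (τ m - e)))
    have hxt : Tendsto (fun m => τ m - e) V atTop := by
      apply Tendsto.mono_left _ hV
      apply tendsto_atTop_add_const_right
      exact tendsto_atTop_mono hlow tendsto_natCast_atTop_atTop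
    have hd1 : ∀ᶠ m in V, g (τ m - e) = d.1 := by
      filter_upwards [hd] with m hm
      exact congrArg Prod.fst hm
    have hd2 : ∀ᶠ m in V, τ' (τ m - e) = d.2 := by
      filter_upwards [hd] with m hm
      exact congrArg Prod.snd hm
    have hfl := flip_seq hg V _ hxt d.1 hd1
    rcases V.em (fun m => P (τ m - e)) with hPe | hPe
    · have hdc : d.1 = !c := by
        obtain ⟨m, hm1, hm2, hm3⟩ := (hd1.and (hPe.and hcc)).exists
        have h1 := (hT _ _).1 (hτT m)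
        have h2 := h1.2.2 (τ m - e) (by omega) (by omega) hm2
        rw [← hm1, h2, hm3]
      filter_upwards [hfl] with i hi
      filter_upwards [hi] with j hj
      have e1 : (τ i - e + (τ j - e)) / 2 = (τ i + τ j) / 2 - e := by omega
      refine ⟨by omega, fun _ => ?_⟩
      rw [← e1, hj.2, hdc, Bool.not_not]
    · filter_upwards [hfl, hPe, hd2] with i hi hi2 hi3
      filter_upwards [hi, hd2] with j hj hj2
      have e1 : (τ i - e + (τ j - e)) / 2 = (τ i + τ j) / 2 - e := by omega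
      refine ⟨by omega, fun h => ?_⟩
      exfalso
      apply hi2
      apply (hτ' (τ i - e) (τ j - e) (by rw [hi3, hj2]) hj.1).1
      rw [e1]
      exact h
  have hkey2 : ∀ᶠ i in V, ∀ᶠ j in V, ∀ e ∈ Finset.range (N₀.toNat + 1), (2 : ℤ) ∣ τ i + τ j ∧
      (P ((τ i + τ j) / 2 - e) → g ((τ i + τ j) / 2 - e) = c) := by
    have : ∀ᶠ i in V, ∀ e ∈ Finset.range (N₀.toNat + 1), ∀ᶠ j in V, (2 : ℤ) ∣ τ i + τ j ∧
      (P ((τ i + τ j) / 2 - e) → g ((τ i + τ j) / 2 - e) = c) := by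
      rw [Filter.eventually_all_finset]
      intro e he
      exact hkey e (by rw [Finset.mem_range] at he; omega)
    filter_upwards [this] with i hi
    rw [Filter.eventually_all_finset]
    exact hi
  obtain ⟨i, hi1, hi2⟩ := (hkey2.and (hV (eventually_gt_atTop (2 * n).toNat))).exists
  obtain ⟨j, hj1, hj2, hj3⟩ :=
    (hi1.and (hcc.and (hV (eventually_gt_atTop (n + G + τ i).toNat)))).exists
  have hτi := hlow i
  obtain ⟨j', rfl⟩ : ∃ j', j = j' + 1 := ⟨j - 1, by omega⟩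
  have h2dvd := (hj1 0 (by simp)).1
  have hz : T (j' + 1) ((τ i + τ (j' + 1)) / 2) := by
    rw [hT]
    have h1 := (hT _ _).1 (hτT i)
    have h1' := (hT _ _).1 (hτT (j' + 1))
    have h2 := hTub _ _ (hτT (j' + 1))
    have h3 := hsm1 (j' + 1)
    have h4 := hlen (j' + 1)
    refine ⟨by omega, by push_cast at h4; omega, fun x hx1 hx2 hx => ?_⟩
    obtain ⟨e, he⟩ : ∃ e : ℕ, (e : ℤ) = (τ i + τ (j' + 1)) / 2 - x :=
      ⟨((τ i + τ (j' + 1)) / 2 - x).toNat, by omega⟩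
    have h5 := (hj1 e (by rw [Finset.mem_range]; omega)).2
    have h6 : (τ i + τ (j' + 1)) / 2 - e = x := by omega
    rw [h6] at h5
    rw [h5 hx, ← hj2, hcol (j' + 1)]
  have h1 := hτmax j' _ hz
  have h2 := hc j'
  omega

end Pool.Agent.W634.Owings
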